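import Pool.Agent.Lib.MP_08a7f3_co.Gap

/-! Path sums for integer valued distance functions, and the winding bound on a ring. -/

namespace Pool.Agent.Lib.MP_08a7f3_co

variable {α β : Type} {d d' : α → α → ℤ}

/-- path sum -/
def sg (d : α → α → ℤ) : α → List α → α → ℤ
  | x, [], y => d x y
  | x, a :: T, y => d x a + sg d a T y

/-- cyclic sum -/
def cs (d : α → α → ℤ) : List α → ℤ
  | [] => 0
  | x :: T => sg d x T x

/-- the triangle inequality -/
def Tri (d : α → α → ℤ) : Prop := ∀ u v w, d u w ≤ d u v + d v w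

lemma sg_append (d : α → α → ℤ) (x : α) (S : List α) (c : α) (T : List α) (y : α) :
    sg d x (S ++ c :: T) y = sg d x S c + sg d c T y := by
  induction S generalizing x with
  | nil => simp [sg]
  | cons a S ih => simp only [List.cons_append, sg, ih, add_assoc]

lemma sg_map (d : β → β → ℤ) (f : α → β) (x : α) (T : List α) (y : α) :
    sg d (f x) (T.map f) (f y) = sg (fun u v => d (f u) (f v)) x T y := by
  induction T generalizing x with
  | nil => rfl
  | cons a T ih => simp only [List.map_cons, sg, ih]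

lemma cs_map (d : β → β → ℤ) (f : α → β) (l : List α) :
    cs d (l.map f) = cs (fun u v => d (f u) (f v)) l := by
  rcases l with _ | ⟨x, T⟩
  · rfl
  · exact sg_map d f x T x

lemma sg_mono (h : ∀ u v, d u v ≤ d' u v) (x : α) (T : List α) (y : α) :
    sg d x T y ≤ sg d' x T y := by
  induction T generalizing x with
  | nil => exact h x y
  | cons a T ih => exact add_le_add (h x a) (ih a)

lemma cs_mono (h : ∀ u v, d u v ≤ d' u v) (l : List α) : cs d l ≤ cs d' l := by
  rcases l with _ | ⟨x, T⟩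
  · exact le_rfl
  · exact sg_mono h x T x

lemma sg_ne (h : ∀ u v, u ≠ v → d u v ≤ d' u v) {x : α} {T : List α} {y : α}
    (h1 : (x :: T).Nodup) (h2 : y ∉ T) (h3 : T = [] → x ≠ y) : sg d x T y ≤ sg d' x T y := by
  induction T generalizing x with
  | nil => exact h x y (h3 rfl)
  | cons a T ih =>
    simp only [List.nodup_cons, List.mem_cons, not_or] at h1 h2
    exact add_le_add (h x a h1.1.1) (ih (List.nodup_cons.2 h1.2) h2.2 fun _ => Ne.symm h2.1)

lemma cs_ne (h : ∀ u v, u ≠ v → d u v ≤ d' u v) {l : List α} (h1 : l.Nodup)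
    (h2 : 2 ≤ l.length) : cs d l ≤ cs d' l := by
  rcases l with _ | ⟨x, T⟩
  · exact le_rfl
  · exact sg_ne h h1 (List.nodup_cons.1 h1).1 fun e => by simp [e] at h2

lemma sg_pot (d : α → α → ℤ) (f : α → ℤ) (x : α) (T : List α) (y : α) :
    sg (fun u v => f u + f v + d u v) x T y = f x + f y + 2 * (T.map f).sum + sg d x T y := by
  induction T generalizing x with
  | nil => simp [sg]
  | cons a T ih => simp only [sg, ih, List.map_cons, List.sum_cons]; ring

lemma cs_pot (d : α → α → ℤ) (f : α → ℤ) (l : List α) :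
    cs (fun u v => f u + f v + d u v) l = 2 * (l.map f).sum + cs d l := by
  rcases l with _ | ⟨x, T⟩
  · simp [cs]
  · simp only [cs, sg_pot, List.map_cons, List.sum_cons]; ring

lemma sg_const (c : ℤ) (x : α) (T : List α) (y : α) :
    sg (fun _ _ => c) x T y = (T.length + 1) * c := by
  induction T generalizing x with
  | nil => simp [sg]
  | cons a T ih => simp only [sg, ih, List.length_cons]; push_cast; ring

lemma cs_const (c : ℤ) (l : List α) : cs (fun _ _ => c) l = l.length * c := by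
  rcases l with _ | ⟨x, T⟩
  · simp [cs]
  · simp [cs, sg_const]

lemma cs_comm (d : α → α → ℤ) (S T : List α) : cs d (S ++ T) = cs d (T ++ S) := by
  rcases S with _ | ⟨a, S⟩
  · simp
  rcases T with _ | ⟨b, T⟩
  · simp
  simp only [List.cons_append, cs, sg_append, add_comm]

lemma Tri.start (h : Tri d) (x a : α) (T : List α) (y : α) :
    sg d x T y ≤ d x a + sg d a T y := by
  rcases T with _ | ⟨b, T⟩
  · exact h x a y
  · have := h x a b
    simp only [sg]; omega

lemma Tri.stop (h : Tri d) (x : α) (T : List α) (c y : α) :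
    sg d x T y ≤ sg d x T c + d c y := by
  induction T generalizing x with
  | nil => exact h x c y
  | cons a T ih =>
    have := ih a
    simp only [sg]; omega

lemma Tri.sub (h : Tri d) {S T : List α} (s : S.Sublist T) (x y : α) :
    sg d x S y ≤ sg d x T y := by
  induction s generalizing x with
  | slnil => exact le_rfl
  | cons a _ ih => exact (h.start x a _ y).trans (add_le_add le_rfl (ih a))
  | cons_cons a _ ih => exact add_le_add le_rfl (ih a)

lemma Tri.ext [Finite α] (h : Tri d) {x : α} {T : List α} (hl : (x :: T).Nodup) :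
    ∃ l, Ord l ∧ cs d (x :: T) ≤ cs d l := by
  classical
  have := Fintype.ofFinite α
  refine ⟨x :: T ++ (Finset.univ.filter (· ∉ x :: T)).toList, ⟨?_, fun v => ?_⟩,
    h.sub (List.sublist_append_left _ _) x x⟩
  · refine hl.append (Finset.nodup_toList _) fun v h1 h2 => ?_
    exact (Finset.mem_filter.1 (Finset.mem_toList.1 h2)).2 h1
  · by_cases e : v ∈ x :: T
    · exact List.mem_append_left _ e
    · exact List.mem_append_right _ (Finset.mem_toList.2 (Finset.mem_filter.2 ⟨by simp, e⟩))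

lemma Tri.short (h : Tri d) {x : α} {T : List α} (hl : ∀ v, v ∈ x :: T) :
    ∃ l, Ord l ∧ cs d l ≤ cs d (x :: T) := by
  classical
  refine ⟨x :: (T.filter (· ≠ x)).dedup, ⟨?_, fun v => ?_⟩,
    h.sub ((List.dedup_sublist _).trans List.filter_sublist) x x⟩
  · exact List.nodup_cons.2 ⟨by simp, List.nodup_dedup _⟩
  · have := hl v
    by_cases e : v = x <;> simp_all

lemma Ord.sum [Fintype α] {l : List α} (h : Ord l) (f : α → ℤ) : (l.map f).sum = ∑ v, f v := by
  classical
  rw [← List.sum_toFinset f h.1]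
  exact Finset.sum_congr (Finset.eq_univ_of_forall fun v => List.mem_toFinset.2 (h.2 v))
    fun _ _ => rfl

lemma Ord.len [Fintype α] {l : List α} (h : Ord l) : l.length = Fintype.card α := by
  classical
  rw [← List.toFinset_card_of_nodup h.1,
    Finset.eq_univ_of_forall fun v => List.mem_toFinset.2 (h.2 v), Finset.card_univ]

/-- the graph distance as an integer -/
noncomputable def dz (G : SimpleGraph α) (u v : α) : ℤ := G.dist u v

variable {G : SimpleGraph α}

lemma cl_cs (l : List α) : (cl G l : ℤ) = cs (dz G) l := by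
  have : ∀ (x : α) (T : List α) (y : α), (seg G x T y : ℤ) = sg (dz G) x T y := by
    intro x T y
    induction T generalizing x with
    | nil => rfl
    | cons a T ih => simp only [seg, sg, ← ih, dz]; push_cast; rfl
  rcases l with _ | ⟨x, T⟩
  · simp [cl, cs]
  · rw [cl_cons, this, cs]

lemma mem_sp {t : ℕ} : t ∈ spectrum G ↔ ∃ l, Ord l ∧ (t : ℤ) = cs (dz G) l := by
  constructor
  · rintro ⟨l, h1, h2, rfl⟩
    exact ⟨l, ⟨h1, h2⟩, cl_cs l⟩
  · rintro ⟨l, h1, h2⟩
    rw [← cl_cs, Nat.cast_inj] at h2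
    exact h2 ▸ h1.mem

lemma dz_tri (hG : G.Connected) : Tri (dz G) := fun u v w => by
  have := hG.dist_triangle (u := u) (v := v) (w := w)
  simp only [dz]; omega

lemma dz_comm (u v : α) : dz G u v = dz G v u := by simp only [dz, SimpleGraph.dist_comm]

lemma dz_self (u : α) : dz G u u = 0 := by simp [dz]

lemma dz_nn (u v : α) : 0 ≤ dz G u v := Int.natCast_nonneg _

lemma dz_adj {u v : α} : dz G u v = 1 ↔ G.Adj u v := by
  rw [← SimpleGraph.dist_eq_one_iff_adj, dz]; omega

lemma dz_pos (hG : G.Connected) {u v : α} (h : u ≠ v) : 1 ≤ dz G u v := by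
  have := hG.pos_dist_of_ne h
  simp only [dz]; omega

lemma dz_lip (hG : G.Connected) {u : α} {φ : α → ℤ} (h0 : φ u ≤ 0)
    (h : ∀ v w, G.Adj v w → φ w ≤ φ v + 1) (v : α) : φ v ≤ dz G u v := by
  have : ∀ {x y : α} (p : G.Walk x y), φ y ≤ φ x + p.length := by
    intro x y p
    induction p with
    | nil => simp
    | cons a p ih =>
      have := h _ _ a
      simp only [SimpleGraph.Walk.length_cons]; push_cast; omega
  obtain ⟨p, hp⟩ := hG.exists_walk_length_eq_dist u v
  have := this p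
  simp only [dz]; omega

lemma sp_ge [Finite α] (hG : G.Connected) {x : α} {T : List α} (hl : (x :: T).Nodup) {b : ℤ}
    (hb : b ≤ sg (dz G) x T x) : ∃ t ∈ spectrum G, b ≤ t := by
  obtain ⟨l, h1, h2⟩ := (dz_tri hG).ext hl
  exact ⟨_, h1.mem, by rw [cl_cs]; exact hb.trans h2⟩

lemma sp_le (hG : G.Connected) {x : α} {T : List α} (hl : ∀ v, v ∈ x :: T) {a : ℤ}
    (ha : sg (dz G) x T x ≤ a) : ∃ t ∈ spectrum G, (t : ℤ) ≤ a := by
  obtain ⟨l, h1, h2⟩ := (dz_tri hG).short hl
  exact ⟨_, h1.mem, by rw [cl_cs]; exact h2.trans ha⟩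

lemma card_le_sp [Fintype α] (hG : G.Connected) (h2 : 2 ≤ Fintype.card α) {t : ℕ}
    (ht : t ∈ spectrum G) : Fintype.card α ≤ t := by
  obtain ⟨l, h, e⟩ := mem_sp.1 ht
  have := cs_ne (d := fun _ _ => 1) (fun u v => dz_pos hG) h.1 (h.len ▸ h2)
  rw [cs_const, h.len] at this
  omega

lemma hub_le [Fintype α] (hG : G.Connected) (z : α) {t : ℕ} (ht : t ∈ spectrum G) :
    (t : ℤ) ≤ 2 * ∑ v, dz G z v := by
  obtain ⟨l, h, e⟩ := mem_sp.1 ht
  have := cs_mono (d := dz G) (d' := fun u v => dz G z u + dz G z v + 0) (fun u v => by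
    have := dz_tri hG u z v
    rw [dz_comm u z] at this
    omega) l
  rw [cs_pot, cs_const, h.sum] at this
  omega

/-- distance to the nearest multiple of `2 h` -/
def rho (h : ℕ) (k : ℤ) : ℤ := |Int.bmod k (2 * h)|

variable {h : ℕ}

lemma rho_ex (h0 : 0 < h) (k : ℤ) : ∃ j : ℤ, (2 * h : ℤ) ∣ k - j ∧ |j| ≤ h ∧ rho h k = |j| := by
  refine ⟨Int.bmod k (2 * h), ?_, ?_, rfl⟩
  · have := Int.dvd_bmod_sub_self (x := k) (m := 2 * h)
    push_cast at this
    exact (dvd_sub_comm).1 this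
  · have h1 := Int.le_bmod (x := k) (m := 2 * h) (by omega)
    have h2 := Int.bmod_lt (x := k) (m := 2 * h) (by omega)
    push_cast at h1 h2
    rw [abs_le]; omega

lemma dv {m a b : ℤ} (e : m ∣ a) (h : b = a) : m ∣ b := h ▸ e

lemma dvd_cases {m k : ℤ} (e : m ∣ k) : k = 0 ∨ m ≤ k ∨ k ≤ -m := by
  by_cases z : k = 0
  · exact Or.inl z
  · have := Int.le_abs_of_dvd z e
    rcases abs_cases k with a | a <;> omega

lemma rho_le (h0 : 0 < h) {k j : ℤ} (e : (2 * h : ℤ) ∣ k - j) : rho h k ≤ |j| := by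
  obtain ⟨i, i1, i2, i3⟩ := rho_ex h0 k
  have := dvd_cases (dvd_sub e i1)
  rcases abs_cases i with a | a <;> rcases abs_cases j with b | b <;> omega

lemma rho_eq (h0 : 0 < h) {k j : ℤ} (e : (2 * h : ℤ) ∣ k - j) (hj : |j| ≤ h) : rho h k = |j| := by
  obtain ⟨i, i1, i2, i3⟩ := rho_ex h0 k
  have := dvd_cases (dvd_sub e i1)
  rcases abs_cases i with a | a <;> rcases abs_cases j with b | b <;> omega

lemma rho_nn (k : ℤ) : 0 ≤ rho h k := abs_nonneg _

lemma rho_h (h0 : 0 < h) (k : ℤ) : rho h k ≤ h := by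
  obtain ⟨i, -, i2, i3⟩ := rho_ex h0 k
  omega

lemma rho_congr (h0 : 0 < h) {k j : ℤ} (e : (2 * h : ℤ) ∣ k - j) : rho h k = rho h j := by
  obtain ⟨i, i1, i2, i3⟩ := rho_ex h0 j
  rw [i3]
  exact rho_eq h0 (by simpa using dvd_add e i1) i2

lemma rho_add (h0 : 0 < h) (k j : ℤ) : rho h (k + j) ≤ rho h k + rho h j := by
  obtain ⟨a, a1, -, a3⟩ := rho_ex h0 k
  obtain ⟨b, b1, -, b3⟩ := rho_ex h0 j
  rw [a3, b3]
  exact (rho_le h0 (j := a + b) (dv (dvd_add a1 b1) (by ring))).trans (abs_add_le a b)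

lemma rho_comm (h0 : 0 < h) (k j : ℤ) : rho h (k - j) = rho h (j - k) := by
  obtain ⟨a, a1, a2, a3⟩ := rho_ex h0 (j - k)
  rw [a3, ← abs_neg a]
  exact rho_eq h0 (dv (dvd_neg.2 a1) (by ring)) (by rwa [abs_neg])

lemma rho_zero (h0 : 0 < h) {k : ℤ} : rho h k = 0 ↔ (2 * h : ℤ) ∣ k := by
  constructor
  · intro e
    obtain ⟨a, a1, -, a3⟩ := rho_ex h0 k
    rw [e, eq_comm, abs_eq_zero] at a3
    simpa [a3] using a1
  · intro e
    simpa using rho_eq h0 (k := k) (j := 0) (by simpa using e) (by simp)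

lemma rho_par (h0 : 0 < h) (k : ℤ) : rho h k % 2 = k % 2 := by
  obtain ⟨a, ⟨c, a1⟩, -, a3⟩ := rho_ex h0 k
  have : k - a = 2 * (h * c) := by rw [a1]; ring
  rcases abs_cases a with b | b <;> omega

/-- the ring distance -/
def rd (h : ℕ) (u v : ℤ) : ℤ := rho h (u - v)

lemma wind_aux (h0 : 0 < h) (x : ℤ) (T : List ℤ) (y : ℤ) : ∃ e lo hi : ℤ, lo ≤ 0 ∧ lo ≤ e ∧
    0 ≤ hi ∧ e ≤ hi ∧ 2 * (hi - lo) - |e| + sg (rd h) x T y ≤ (T.length + 1) * h ∧
    (2 * h : ℤ) ∣ y - x - e - (T.length + 1) * h ∧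
    ∀ t ∈ T, ∃ s, lo ≤ s ∧ s ≤ hi ∧ (h : ℤ) ∣ t - x - s := by
  have st : ∀ x a : ℤ, ∃ ε : ℤ, |ε| + rd h x a ≤ h ∧ (2 * h : ℤ) ∣ a - x - ε - h := by
    intro x a
    obtain ⟨j, j1, j2, j3⟩ := rho_ex h0 (a - x)
    rw [rd, rho_comm h0, j3]
    rcases abs_cases j with b | b
    · exact ⟨j - h, by rcases abs_cases (j - h) with c | c <;> omega,
        dv j1 (by ring)⟩
    · exact ⟨j + h, by rcases abs_cases (j + h) with c | c <;> omega,
        dv (dvd_sub j1 (dvd_refl _)) (by ring)⟩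
  induction T generalizing x with
  | nil =>
    obtain ⟨ε, e1, e2⟩ := st x y
    refine ⟨ε, min 0 ε, max 0 ε, by omega, by omega, by omega, by omega, ?_, by simpa using e2,
      by simp⟩
    simp only [sg, List.length_nil]
    rcases abs_cases ε with c | c <;> omega
  | cons a T ih =>
    obtain ⟨ε, e1, e2⟩ := st x a
    obtain ⟨e, lo, hi, k1, k2, k3, k4, k5, k6, k7⟩ := ih a
    have hh : (h : ℤ) ∣ a - x - ε := by
      simpa using dvd_add ((Dvd.intro_left 2 rfl).trans e2) (dvd_refl (h : ℤ))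
    refine ⟨ε + e, min 0 (ε + lo), max 0 (ε + hi), by omega, by omega, by omega, by omega, ?_,
      ?_, fun t ht => ?_⟩
    · simp only [sg, List.length_cons]
      push_cast
      rw [add_mul _ 1, one_mul]
      rcases abs_cases ε with c | c <;> rcases abs_cases e with c' | c' <;>
        rcases abs_cases (ε + e) with c'' | c'' <;> omega
    · refine dv (dvd_add e2 k6) ?_
      simp only [List.length_cons]; push_cast; ring
    · rcases List.mem_cons.1 ht with rfl | ht
      · exact ⟨ε, by omega, by omega, hh⟩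
      · obtain ⟨s, s1, s2, s3⟩ := k7 t ht
        exact ⟨ε + s, by omega, by omega, dv (dvd_add hh s3) (by ring)⟩

/-- the winding bound -/
lemma wind (h0 : 0 < h) {l : List ℤ} (hc : ∀ k, ∃ t ∈ l, (2 * h : ℤ) ∣ t - k) :
    cs (rd h) l + (if Even l.length then 2 * (h : ℤ) - 2 else h) ≤ l.length * h := by
  rcases l with _ | ⟨x, T⟩
  · obtain ⟨t, ht, -⟩ := hc 0
    simp at ht
  obtain ⟨e, lo, hi, k1, k2, k3, k4, k5, k6, k7⟩ := wind_aux h0 x T x
  simp only [cs, List.length_cons]
  push_cast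
  split_ifs with p
  · obtain ⟨c, hc'⟩ := p
    have : (2 * h : ℤ) ∣ e := by
      have q : ((T.length : ℤ) + 1) * h = 2 * h * c := by
        rw [show (T.length : ℤ) + 1 = c + c by exact_mod_cast hc']; ring
      rw [q] at k6
      simpa using dvd_add k6 (Dvd.intro c rfl)
    obtain ⟨t, ht, t1⟩ := hc (x + hi + 1)
    have t2 := (Dvd.intro_left 2 rfl).trans t1
    obtain ⟨s, s1, s2, s3⟩ : ∃ s, lo ≤ s ∧ s ≤ hi ∧ (h : ℤ) ∣ t - x - s := by
      rcases List.mem_cons.1 ht with rfl | ht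
      · exact ⟨0, k1, k3, by simp⟩
      · exact k7 t ht
    have := dvd_cases this
    have := dvd_cases (dvd_sub s3 t2)
    rcases abs_cases e with b | b <;> omega
  · obtain ⟨c, hc'⟩ := Nat.not_even_iff_odd.1 p
    have : (2 * h : ℤ) ∣ e + h := by
      have q : ((T.length : ℤ) + 1) * h = 2 * h * c + h := by
        rw [show (T.length : ℤ) + 1 = 2 * c + 1 by exact_mod_cast hc']; ring
      rw [q] at k6
      exact dv (dvd_neg.2 (dvd_add k6 (Dvd.intro c rfl))) (by ring)
    have := dvd_cases this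
    rcases abs_cases e with b | b <;> omega

end Pool.Agent.Lib.MP_08a7f3_co
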