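import Pool.Agent.Lib.MP_08a7f3_co.Op.Ring

/-! Adding a leaf. -/

namespace Pool.Agent.Lib.MP_08a7f3_co

variable {V : Type} {G : SimpleGraph V} {z : V}

/-- the graph with a new vertex joined to `z` -/
def leaf (G : SimpleGraph V) (z : V) : SimpleGraph (Option V) where
  Adj u v := (∃ x y, u = some x ∧ v = some y ∧ G.Adj x y) ∨ (u = none ∧ v = some z) ∨
    (u = some z ∧ v = none)
  symm := ⟨by
    rintro u v (⟨x, y, a, b, c⟩ | e | e)
    · exact Or.inl ⟨y, x, b, a, c.symm⟩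
    · exact Or.inr (Or.inr e.symm)
    · exact Or.inr (Or.inl e.symm)⟩
  loopless := ⟨by
    rintro u (⟨x, y, rfl, b, c⟩ | ⟨rfl, e⟩ | ⟨rfl, e⟩)
    · exact c.ne (Option.some_injective _ b)
    · cases e
    · cases e⟩

/-- the inclusion -/
def leafHom (G : SimpleGraph V) (z : V) : G →g leaf G z :=
  ⟨some, fun {x y} e => Or.inl ⟨x, y, rfl, rfl, e⟩⟩

lemma leaf_adj : (leaf G z).Adj none (some z) := Or.inr (Or.inl ⟨rfl, rfl⟩)

lemma leaf_conn (hG : G.Connected) : (leaf G z).Connected := by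
  have k : ∀ v, (leaf G z).Reachable (some z) v := by
    rintro (_ | v)
    · exact leaf_adj.symm.reachable
    · exact (hG z v).map (leafHom G z)
  exact ⟨fun u v => (k u).symm.trans (k v)⟩

lemma leaf_col (hb : G.Colorable 2) : (leaf G z).Colorable 2 := by
  obtain ⟨C⟩ := hb
  have k : ∀ c : Fin 2, c + 1 ≠ c := by decide
  refine ⟨SimpleGraph.Coloring.mk (fun v => v.elim (C z + 1) C) ?_⟩
  rintro u v (⟨x, y, rfl, rfl, c⟩ | ⟨rfl, rfl⟩ | ⟨rfl, rfl⟩)
  · exact C.valid c
  · exact k _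
  · exact (k _).symm

lemma leaf_ss (hG : G.Connected) (u v : V) : dz (leaf G z) (some u) (some v) = dz G u v := by
  refine le_antisymm ?_ (dz_lip (leaf_conn hG) (φ := fun v => dz G u (v.getD z))
    (dz_self u).le ?_ (some v))
  · obtain ⟨p, hp⟩ := hG.exists_walk_length_eq_dist u v
    have := SimpleGraph.dist_le (p.map (leafHom G z))
    rw [SimpleGraph.Walk.length_map, hp] at this
    exact Int.ofNat_le.2 this
  · rintro v w (⟨x, y, rfl, rfl, c⟩ | ⟨rfl, rfl⟩ | ⟨rfl, rfl⟩)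
    · exact dz_adj.2 c ▸ dz_tri hG u x y
    · simp
    · simp

lemma leaf_ns (hG : G.Connected) (v : V) : dz (leaf G z) none (some v) = 1 + dz G z v := by
  refine le_antisymm ?_ (dz_lip (leaf_conn hG) (φ := fun v => v.elim 0 fun v => 1 + dz G z v)
    le_rfl ?_ (some v))
  · have := dz_tri (leaf_conn (z := z) hG) none (some z) (some v)
    rwa [dz_adj.2 leaf_adj, leaf_ss hG] at this
  · rintro v w (⟨x, y, rfl, rfl, c⟩ | ⟨rfl, rfl⟩ | ⟨rfl, rfl⟩)
    · have := dz_adj.2 c ▸ dz_tri hG z x y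
      simp only [Option.elim]; omega
    · simp [dz_self]
    · simp [dz_self]

lemma leaf_sn (hG : G.Connected) (v : V) : dz (leaf G z) (some v) none = 1 + dz G z v := by
  rw [dz_comm, leaf_ns hG]

lemma leaf_sg (hG : G.Connected) (x : V) (T : List V) (y : V) :
    sg (dz (leaf G z)) (some x) (T.map some) (some y) = sg (dz G) x T y := by
  simp only [sg_map, leaf_ss hG]

lemma leaf_sg1 (hG : G.Connected) (T : List V) (y : V) :
    sg (dz (leaf G z)) none (T.map some) (some y) = 1 + sg (dz G) z T y := by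
  rcases T with _ | ⟨a, T⟩
  · exact leaf_ns hG y
  · simp only [List.map_cons, sg, leaf_ns hG, leaf_sg hG, add_assoc]

lemma leaf_sg2 (hG : G.Connected) (x : V) (T : List V) :
    sg (dz (leaf G z)) (some x) (T.map some) none = 1 + sg (dz G) x T z := by
  induction T generalizing x with
  | nil => exact (leaf_sn hG x).trans (by rw [dz_comm]; rfl)
  | cons a T ih => simp only [List.map_cons, sg, leaf_ss hG, ih]; ring

lemma Ord.rot {l : List V} (h : Ord l) (d : V → V → ℤ) (z : V) :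
    ∃ T, Ord (z :: T) ∧ cs d l = sg d z T z := by
  obtain ⟨S, T, rfl⟩ := List.append_of_mem (h.2 z)
  exact ⟨T ++ S, h.perm List.perm_append_comm, cs_comm d S (z :: T)⟩

lemma leaf_mem (hG : G.Connected) {t : ℕ} (e : t ∈ spectrum G) : t + 2 ∈ spectrum (leaf G z) := by
  obtain ⟨l, hl, e⟩ := mem_sp.1 e
  obtain ⟨T, o, q⟩ := hl.rot (dz G) z
  refine mem_sp.2 ⟨some z :: none :: T.map some, ⟨?_, ?_⟩, ?_⟩
  · have := o.1.map (Option.some_injective V)
    simp only [List.map_cons, List.nodup_cons] at this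
    simp [this.2, (List.nodup_cons.1 o.1).1]
  · rintro (_ | v)
    · simp
    · simpa using o.2 v
  · simp only [cs, sg, leaf_sn hG, leaf_sg1 hG, dz_self]
    push_cast; omega

lemma leaf_low (hG : G.Connected) {t : ℕ} (e : t ∈ spectrum (leaf G z)) :
    ∃ s ∈ spectrum G, s + 2 ≤ t := by
  obtain ⟨l, hl, e⟩ := mem_sp.1 e
  obtain ⟨T, o, q⟩ := hl.rot (dz (leaf G z)) none
  obtain ⟨T, rfl⟩ : ∃ S : List V, T = S.map some := by
    have := (List.nodup_cons.1 o.1).1
    refine ⟨T.reduceOption, ?_⟩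
    clear o q
    induction T with
    | nil => rfl
    | cons a T ih =>
      rcases a with _ | a
      · simp at this
      · rw [List.reduceOption_cons_of_some, List.map_cons, ← ih fun e => this (.tail _ e)]
  have o' : Ord T := ⟨(List.nodup_cons.1 o.1).2.of_map _, fun v => by simpa using o.2 (some v)⟩
  refine ⟨_, o'.mem, ?_⟩
  have h1 := cl_cs (G := G) T
  rcases T with _ | ⟨a, T⟩
  · simpa using o'.2 z
  · have := (dz_tri hG).stop a T z a
    rw [List.map_cons, sg, leaf_ns hG, leaf_sg2 hG] at q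
    rw [cs] at h1
    omega

lemma leaf_least (hG : G.Connected) {a : ℕ} (h : IsLeast (spectrum G) a) :
    IsLeast (spectrum (leaf G z)) (a + 2) := ⟨leaf_mem hG h.1, fun t ht => by
  obtain ⟨s, s1, s2⟩ := leaf_low hG ht
  have := h.2 s1
  omega⟩

lemma leaf_sum [Fintype V] (hG : G.Connected) (x : V) :
    ∑ v, dz (leaf G z) (some x) v = 1 + dz G z x + ∑ v, dz G x v := by
  simp only [Fintype.sum_option, leaf_sn hG, leaf_ss hG]

lemma Sec.leaf (hG : G.Connected) {h : ℕ} {ω : ℤ → V} (S : Sec G h ω) :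
    Sec (leaf G z) h fun k => some (ω k) := fun s t => (leaf_ss hG _ _).symm ▸ S s t

/-- `a` and `b` are the ends of the spectrum of a connected bipartite graph -/
def Rl (a b : ℕ) : Prop := ∃ (V : Type) (_ : Finite V) (_ : Nontrivial V) (G : SimpleGraph V),
  G.Connected ∧ G.Colorable 2 ∧ IsLeast (spectrum G) a ∧ IsGreatest (spectrum G) b

/-- the same, with a vertex through which the longest ordering passes at every step -/
def HT (a b : ℕ) : Prop := ∃ (V : Type) (_ : Fintype V) (_ : Nontrivial V) (G : SimpleGraph V)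
  (z : V), G.Connected ∧ G.Colorable 2 ∧ IsLeast (spectrum G) a ∧ 2 * ∑ v, dz G z v ≤ b ∧
    ∃ t ∈ spectrum G, (b : ℤ) ≤ t

lemma greatest_of {b : ℕ} (h1 : ∀ t ∈ spectrum G, (t : ℤ) ≤ b) (h2 : ∃ t ∈ spectrum G, (b : ℤ) ≤ t) :
    IsGreatest (spectrum G) b := by
  obtain ⟨t, t1, t2⟩ := h2
  have := h1 t t1
  exact ⟨(show t = b by omega) ▸ t1, fun s hs => by have := h1 s hs; omega⟩

lemma least_of {a : ℕ} (h1 : ∀ t ∈ spectrum G, a ≤ t) (h2 : ∃ t ∈ spectrum G, (t : ℤ) ≤ a) :
    IsLeast (spectrum G) a := by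
  obtain ⟨t, t1, t2⟩ := h2
  have := h1 t t1
  exact ⟨(show t = a by omega) ▸ t1, h1⟩

lemma HT.rl {a b : ℕ} (h : HT a b) : Rl a b := by
  obtain ⟨V, _, _, G, z, h1, h2, h3, h4, h5⟩ := h
  exact ⟨V, inferInstance, inferInstance, G, h1, h2, h3,
    greatest_of (fun t ht => (hub_le h1 z ht).trans h4) h5⟩

lemma HT.step {a b : ℕ} (h : HT a b) : HT (a + 2) (b + 2) := by
  obtain ⟨V, _, _, G, z, h1, h2, h3, h4, t, h5, h6⟩ := h
  refine ⟨Option V, inferInstance, inferInstance, leaf G z, some z, leaf_conn h1, leaf_col h2,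
    leaf_least h1 h3, ?_, t + 2, leaf_mem h1 h5, by omega⟩
  rw [leaf_sum h1, dz_self]
  omega

end Pool.Agent.Lib.MP_08a7f3_co
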