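import Pool.Agent.Lib.MP_08a7f3_co.Op.RD
import Pool.Agent.Lib.MP_08a7f3_co.Op.Leaf

/-! A ring with finitely many extra points. -/

namespace Pool.Agent.Lib.MP_08a7f3_co

variable {h m : ℕ}

/-- `c` is the ring distance of `k` from zero -/
def Nr (h : ℕ) (k c : ℤ) : Prop :=
  0 ≤ c ∧ c ≤ h ∧ (k = c ∨ k = -c ∨ k = 2 * h - c ∨ k = c - 2 * h)

lemma Nr.eq (h0 : 0 < h) {s t c : ℤ} (e : Nr h (s - t) c) : rd h s t = c :=
  rho_is c h0 e.1 e.2.1 e.2.2

/-- the residue -/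
def cf (h0 : 0 < h) (k : ℤ) : Fin (2 * h) := ⟨(k % (2 * h)).toNat, by
  have h1 := Int.emod_nonneg k (b := 2 * h) (by omega)
  have h2 := Int.emod_lt_of_pos k (b := 2 * h) (by omega)
  omega⟩

/-- the extra points -/
structure Ex (m h : ℕ) where
  π : Fin m → ℤ
  η : Fin m → ℤ
  Q : Fin m → Fin m → Prop
  h0 : 0 < h
  h01 : ∀ e, η e = 0 ∨ η e = 1
  sy : ∀ u v, Q u v → Q v u
  pr : ∀ u v, Q u v → η u = 1 ∧ rd h (π u) (π v) = 1
  un : ∀ u v w, Q u v → Q u w → v = w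

namespace Ex

variable (E : Ex m h)

/-- the data of the graph -/
def R : RD (Fin (2 * h) ⊕ Fin m) h where
  pos := Sum.elim (fun i => (i : ℕ)) E.π
  ht := Sum.elim (fun _ => 0) E.η
  P u v := ∃ x y, u = .inr x ∧ v = .inr y ∧ E.Q x y
  ω k := .inl (cf E.h0 k)
  h0 := E.h0
  h01 := by
    rintro (i | e)
    · exact Or.inl rfl
    · exact E.h01 e
  sy := fun _ _ ⟨x, y, a, b, c⟩ => ⟨y, x, b, a, E.sy _ _ c⟩
  pr := by
    rintro _ _ ⟨x, y, rfl, rfl, c⟩
    exact E.pr _ _ c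
  un := by
    rintro _ _ _ ⟨x, y, rfl, rfl, c⟩ ⟨x', y', a, rfl, c'⟩
    cases a
    rw [E.un _ _ _ c c']
  w0 _ := rfl
  wp k := by
    have := E.h0
    simp only [Sum.elim_inl, cf, Int.toNat_of_nonneg (Int.emod_nonneg k (b := 2 * h) (by omega))]
    exact (Int.mod_modEq k _).symm.dvd
  wc s t e := by
    have : t % (2 * h) = s % (2 * h) := Int.modEq_iff_dvd.2 e
    simp only [cf, this]

/-- the graph -/
abbrev G := E.R.gr

/-- the points of the ring -/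
abbrev w := E.R.ω

lemma conn : E.G.Connected := E.R.conn

lemma inl_eq (i : Fin (2 * h)) : .inl i = E.w (i : ℕ) := by
  have := i.2
  refine congrArg Sum.inl (Fin.ext ?_)
  simp only [cf]
  rw [Int.emod_eq_of_lt (by omega) (by omega), Int.toNat_natCast]

lemma cov (v : Fin (2 * h) ⊕ Fin m) : (∃ i < 2 * h, v = E.w (i : ℕ)) ∨ ∃ e, v = .inr e := by
  rcases v with i | e
  · exact Or.inl ⟨i, i.2, E.inl_eq i⟩
  · exact Or.inr ⟨e, rfl⟩

lemma out (e : Fin m) (s : ℤ) : .inr e ≠ E.w s := Sum.inr_ne_inl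

include E in
lemma nt : Nontrivial (Fin (2 * h) ⊕ Fin m) := by
  have := E.h0
  exact ⟨_, _, E.R.sec.ne E.h0 (s := 0) (t := 1) (by omega) (by omega) (by omega)⟩

lemma ww (s t c : ℤ) (e : Nr h (s - t) c) : c ≤ dz E.G (E.w s) (E.w t) :=
  e.eq E.h0 ▸ E.R.sec s t

lemma xw (e : Fin m) (s x y c : ℤ) (hx : E.π e = x) (hy : E.η e = y) (hc : Nr h (x - s) c) :
    y + c ≤ dz E.G (.inr e) (E.w s) := by
  have := E.R.low (E.out e s) (by rintro ⟨_, _, -, b, -⟩; cases b)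
  rw [E.R.rdw, E.R.w0, add_zero] at this
  rw [← hc.eq E.h0, ← hx, ← hy]
  exact this

lemma wx (s : ℤ) (e : Fin m) (x y c : ℤ) (hx : E.π e = x) (hy : E.η e = y)
    (hc : Nr h (x - s) c) : y + c ≤ dz E.G (E.w s) (.inr e) :=
  dz_comm (G := E.G) _ _ ▸ E.xw e s x y c hx hy hc

lemma xx (e e' : Fin m) (x x' y c : ℤ) (ne : e ≠ e') (nq : ¬ E.Q e e') (hx : E.π e = x)
    (hx' : E.π e' = x') (hy : E.η e + E.η e' = y) (hc : Nr h (x - x') c) :
    y + c ≤ dz E.G (.inr e) (.inr e') := by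
  have := E.R.low (u := .inr e) (v := .inr e') (fun q => ne (Sum.inr_injective q))
    (by rintro ⟨_, _, a, b, q⟩; cases a; cases b; exact nq q)
  rw [← hc.eq E.h0, ← hx, ← hx', ← hy]
  exact this

lemma st (s : ℤ) : dz E.G (E.w s) (E.w (s + 1)) = 1 := dz_adj.2 (E.R.adjw s)

lemma pair (e e' : Fin m) (s : ℤ) (q : E.Q e e') (hx : E.π e = s) (hx' : E.π e' = s + 1) :
    sg (dz E.G) (E.w s) [.inr e, .inr e'] (E.w (s + 1)) = 3 := by
  have a1 := dz_adj.2 (E.R.adj1 (v := .inr e) (E.pr _ _ q).1 (k := s)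
    (hx ▸ rd_self E.h0 _)).symm
  have a2 := dz_adj.2 (E.R.adj1 (v := .inr e') (E.pr _ _ (E.sy _ _ q)).1 (k := s + 1)
    (hx' ▸ rd_self E.h0 _))
  have a3 := dz_adj.2 (show E.G.Adj (.inr e) (.inr e') from Or.inr (Or.inr ⟨_, _, rfl, rfl, q⟩))
  simp only [sg, a1, a2, a3]; rfl

lemma kpair (e e' : Fin m) (a : E.η e = 0) (b : E.η e' = 1) (hx : E.π e = 0) (hx' : E.π e' = 0) :
    sg (dz E.G) (E.w (-1)) [.inr e, .inr e'] (E.w (-1 + 1)) = 3 := by
  have := E.h0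
  have a1 := dz_adj.2 (E.R.adj0 (v := .inr e) a (k := -1)
    (Nr.eq E.h0 (s := E.π e) (by unfold Nr; omega))).symm
  have a2 := dz_adj.2 (E.R.adj1 (v := .inr e') b (k := -1 + 1)
    (Nr.eq E.h0 (s := E.π e') (by unfold Nr; omega)))
  have a3 := dz_adj.2 (show E.G.Adj (.inr e) (.inr e') from Or.inr (Or.inl
    ⟨show E.η e + E.η e' = 1 by omega, Nr.eq E.h0 (s := E.π e) (t := E.π e')
      (by unfold Nr; omega)⟩))
  simp only [sg, a1, a2, a3]; rfl

lemma short {r : ℕ} (hr : r + 2 ≤ 2 * h) (X Y : List (Fin m)) (hc : ∀ e, e ∈ X ∨ e ∈ Y) {a : ℤ}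
    (ha : 2 * h - 2 + sg (dz E.G) (E.w r) (X.map .inr) (E.w (r + 1)) +
      sg (dz E.G) (E.w (-1)) (Y.map .inr) (E.w (-1 + 1)) ≤ a) :
    ∃ t ∈ spectrum E.G, (t : ℤ) ≤ a := by
  refine E.R.ring.short E.conn hr (X.map .inr) (Y.map .inr) (fun v => ?_) ?_
  · rcases E.cov v with q | ⟨e, rfl⟩
    · exact Or.inl q
    · exact Or.inr ((hc e).imp List.mem_map_of_mem List.mem_map_of_mem)
  · rw [E.R.wc ((2 * h - 1 : ℕ) : ℤ) (-1) (dv (dvd_refl _) (by omega))]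
    push_cast
    exact ha

lemma card_le {t : ℕ} (ht : t ∈ spectrum E.G) : 2 * h + m ≤ t := by
  have := E.h0
  simpa using card_le_sp E.conn (by simp; omega) ht

lemma hub (h1 : ∀ e, E.η e = 1) :
    ∑ v, dz E.G (E.w 0) v ≤ h ^ 2 + ∑ e, (1 + rd h 0 (E.π e)) := by
  rw [Fintype.sum_sum_type]
  refine add_le_add ?_ (Finset.sum_le_sum fun e _ => E.R.up1 (v := .inr e) (h1 e) 0)
  simp only [E.inl_eq]
  rw [Fin.sum_univ_eq_sum_range (fun i => dz E.G (E.w 0) (E.w (i : ℕ))),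
    congrArg Finset.range (two_mul h)]
  have R : Ring E.G (2 * h) fun i => E.w i := E.R.ring
  have b1 := sum_up (fun i => dz E.G (E.w 0) (E.w (i : ℕ))) 0 h 0 1 fun i hi => by
    have := R.le' E.conn (Nat.zero_le (0 + i)) (by omega)
    push_cast at this ⊢; omega
  have b2 := sum_up (fun i => dz E.G (E.w 0) (E.w (i : ℕ))) h h h (-1) fun i hi => by
    have := R.le' E.conn (Nat.zero_le (h + i)) (by omega)
    push_cast at this ⊢; omega
  simp only [zero_add, Finset.range_zero, Finset.sum_empty] at b1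
  nlinarith

lemma twin (h2 : 2 ≤ h) (y : Fin m) (y2 : E.η y = 0) (y3 : E.π y = 0)
    (y4 : ∀ e, E.η e = 0 → e = y) {t : ℕ} (e : t ∈ spectrum E.G) :
    (t : ℤ) + (if Even m then 2 * (h : ℤ) - 2 else h) ≤ (2 * h + m) * h + 2 * ∑ e, E.η e := by
  have := E.R.twin h2 (y := .inr y) (E.out y) y2 y3 (fun v hv => by
    rcases E.cov v with ⟨i, -, q⟩ | ⟨e, rfl⟩
    · exact Or.inr ⟨_, q⟩
    · exact Or.inl (congrArg _ (y4 e hv))) e
  simpa [Fintype.sum_sum_type, R, Nat.even_add] using this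

lemma tour (h2 : 2 ≤ h) {p : ℤ} (hp : p = 1 ∨ p = 1 - h) (X Y : List (Fin m))
    (nd : (X ++ Y).Nodup) {b : ℤ} (hb : b ≤ 2 * h ^ 2 - 3 * h + 2 +
      sg (dz E.G) (E.w h) (X.map .inr) (E.w p) +
      sg (dz E.G) (E.w (p + 2 * h - 2)) (Y.map .inr) (E.w 0)) :
    ∃ t ∈ spectrum E.G, b ≤ t := by
  refine MP_08a7f3_co.tour E.conn h2 E.R.sec hp _ _ ?_ (fun v hv s => ?_) hb
  · rw [← List.map_append]
    exact nd.map Sum.inr_injective
  · rw [← List.map_append] at hv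
    obtain ⟨e, -, rfl⟩ := List.mem_map.1 hv
    exact E.out e s

lemma ltour (h2 : 2 ≤ h) (z : Fin (2 * h) ⊕ Fin m) (X Y : List (Option (Fin m)))
    (nd : (X ++ Y).Nodup) {b : ℤ} (hb : b ≤ 2 * h ^ 2 - 3 * h + 2 +
      sg (dz (leaf E.G z)) (some (E.w h)) (X.map (Option.map .inr)) (some (E.w (1 - h))) +
      sg (dz (leaf E.G z)) (some (E.w (1 - h + 2 * h - 2))) (Y.map (Option.map .inr))
        (some (E.w 0))) : ∃ t ∈ spectrum (leaf E.G z), b ≤ t := by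
  refine MP_08a7f3_co.tour (leaf_conn E.conn) h2 (E.R.sec.leaf E.conn) (Or.inr rfl) _ _ ?_
    (fun v hv s => ?_) hb
  · rw [← List.map_append]
    exact nd.map (Option.map_injective Sum.inr_injective)
  · rw [← List.map_append] at hv
    obtain ⟨_ | e, -, rfl⟩ := List.mem_map.1 hv
    · exact fun q => by cases q
    · exact fun q => E.out e s (Option.some_injective _ q)

end Ex

/-- the cycle -/
def exC (h0 : 0 < h) : Ex 0 h := ⟨Fin.elim0, Fin.elim0, fun _ _ => False, h0, fun e => e.elim0,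
  fun e => e.elim0, fun e => e.elim0, fun e => e.elim0⟩

/-- one twin -/
def exT (h0 : 0 < h) : Ex 1 h := ⟨fun _ => 0, fun _ => 0, fun _ _ => False, h0, by simp,
  by simp, by simp, by simp⟩

/-- one twin and a common neighbour -/
def exK (h0 : 0 < h) : Ex 2 h := ⟨fun _ => 0, ![0, 1], fun _ _ => False, h0, by decide,
  by simp, by simp, by simp⟩

lemma rd_succ (h0 : 0 < h) (s : ℤ) : rd h s (s + 1) = 1 ∧ rd h (s + 1) s = 1 :=
  ⟨Nr.eq h0 (by unfold Nr; omega), Nr.eq h0 (by unfold Nr; omega)⟩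

/-- one square on an edge -/
def exG (h0 : 0 < h) : Ex 2 h := ⟨![-1, -1 + 1], fun _ => 1, fun u v => u ≠ v, h0, by simp,
  by decide, fun u v => by
    have := rd_succ h0 (-1)
    fin_cases u <;> fin_cases v <;> simp_all, by decide⟩

/-- two squares -/
def exGG (h0 : 0 < h) (r : ℤ) : Ex 4 h := ⟨![-1, -1 + 1, r, r + 1], fun _ => 1,
  fun u v => u ≠ v ∧ u.1 / 2 = v.1 / 2, h0, by simp, by decide, fun u v => by
    have := rd_succ h0 (-1)
    have := rd_succ h0 r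
    fin_cases u <;> fin_cases v <;> simp_all, by decide⟩

/-- a twin with a common neighbour and a square -/
def exGK (h0 : 0 < h) : Ex 4 h := ⟨![0, 0, h, h + 1], ![0, 1, 1, 1],
  fun u v => u ≠ v ∧ 2 ≤ u.1 ∧ 2 ≤ v.1, h0, by decide, by decide, fun u v => by
    have := rd_succ h0 h
    fin_cases u <;> fin_cases v <;> simp_all, by decide⟩

end Pool.Agent.Lib.MP_08a7f3_co
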