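import Pool.Agent.Lib.MP_08a7f3_co.Op.Ex

/-! The graphs that realize the list. -/

namespace Pool.Agent.Lib.MP_08a7f3_co

variable {h b : ℕ}

lemma leastC (h0 : 0 < h) : IsLeast (spectrum (exC h0).G) (2 * h) := by
  refine least_of (fun t ht => (exC h0).card_le ht) ((exC h0).short (r := 0) (by omega) [] []
    (fun e => e.elim0) ?_)
  simp only [List.map_nil, sg, Ex.st]
  push_cast; omega

lemma leastG (h0 : 0 < h) : IsLeast (spectrum (exG h0).G) (2 * h + 2) := by
  refine least_of (fun t ht => (exG h0).card_le ht) ((exG h0).short (r := 0) (by omega) [] [0, 1]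
    (by decide) ?_)
  have := (exG h0).pair 0 1 (-1) (by decide : (0 : Fin 2) ≠ 1) rfl rfl
  simp only [List.map_nil, List.map_cons, this, sg, Ex.st]
  push_cast; omega

lemma leastGG (h0 : 0 < h) {r : ℕ} (hr : r + 2 ≤ 2 * h) :
    IsLeast (spectrum (exGG h0 r).G) (2 * h + 4) := by
  refine least_of (fun t ht => (exGG h0 r).card_le ht) ((exGG h0 r).short hr [2, 3] [0, 1]
    (by decide) ?_)
  have h1 := (exGG h0 r).pair 0 1 (-1) ⟨by decide, rfl⟩ rfl rfl
  have h2 := (exGG h0 r).pair 2 3 r ⟨by decide, rfl⟩ rfl rfl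
  simp only [List.map_nil, List.map_cons, h1, h2]
  push_cast; omega

lemma hubC (h0 : 0 < h) : ∑ v, dz (exC h0).G ((exC h0).w 0) v ≤ h ^ 2 := by
  simpa using (exC h0).hub fun e => e.elim0

lemma hubG (h0 : 0 < h) : ∑ v, dz (exG h0).G ((exG h0).w 0) v ≤ h ^ 2 + 3 := by
  have := (exG h0).hub fun _ => rfl
  have a1 := (rd_succ h0 (-1)).2
  have a2 := rd_self h0 0
  simp only [Fin.sum_univ_two, exG, Matrix.cons_val_zero, Matrix.cons_val_one,
    Int.reduceNeg, neg_add_cancel] at this a1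
  simp only [exG, Int.reduceNeg, neg_add_cancel]
  omega

lemma rlC (h2 : 2 ≤ h) (e : (b : ℤ) = 2 * h ^ 2 - 2 * h + 2) : Rl (2 * h) b := by
  have h0 : 0 < h := by omega
  refine ⟨_, inferInstance, (exC h0).nt, (exC h0).G, (exC h0).conn, (exC h0).R.col, leastC h0,
    greatest_of (fun t ht => ?_) (e ▸ low_cyc (exC h0).conn h2 (exC h0).R.sec)⟩
  have := (exC h0).R.ring.up (exC h0).conn h0 (m := 0) (by simp) Fin.elim0 Fin.elim0
    (fun k => k.elim0) (fun k => k.elim0)
    (fun v => Or.inl (((exC h0).cov v).resolve_right fun ⟨e, _⟩ => e.elim0)) ht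
  push_cast at this
  nlinarith

lemma rlT (h2 : 2 ≤ h) (e : (b : ℤ) = 2 * h ^ 2) : Rl (2 * h + 2) b := by
  have h0 : 0 < h := by omega
  let E := exT h0
  refine ⟨_, inferInstance, E.nt, E.G, E.conn, E.R.col, least_of (fun t ht => ?_)
    (E.short (r := 0) (by omega) [] [0] (by decide) ?_), greatest_of (fun t ht => ?_)
    (E.tour h2 (Or.inr rfl) [0] [] (by simp) ?_)⟩
  · have h1 := E.card_le ht
    obtain ⟨c, hc⟩ := even_of_bip E.conn E.R.col ht
    omega
  · have a1 := dz_adj.2 (E.R.adj0 (v := .inr 0) rfl (k := -1)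
      (Nr.eq h0 (s := 0) (by unfold Nr; omega))).symm
    have a2 := dz_adj.2 (E.R.adj0 (v := .inr 0) rfl (k := 0 + 1)
      (Nr.eq h0 (s := 0) (by unfold Nr; omega)))
    have a3 := dz_tri E.conn (.inr 0) (E.w (0 + 1)) (E.w 0)
    rw [dz_comm (E.w (0 + 1)), E.st] at a3
    change dz E.G (E.w _) _ = _ at a1
    change dz E.G _ (E.w _) = _ at a2
    simp only [List.map_nil, List.map_cons, sg, Ex.st, a1, neg_add_cancel]
    push_cast; omega
  · have := E.twin h2 0 rfl rfl (fun e _ => Subsingleton.elim e 0) ht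
    simp only [Nat.not_even_one, if_false, E, exT, Finset.sum_const_zero] at this
    push_cast at this
    nlinarith
  · have a1 := E.wx h 0 0 0 h rfl rfl (by unfold Nr; omega)
    have a2 := E.xw 0 (1 - h) 0 0 (h - 1) rfl rfl (by unfold Nr; omega)
    have a3 := E.ww (1 - h + 2 * h - 2) 0 (h - 1) (by unfold Nr; omega)
    simp only [List.map_nil, List.map_cons, sg]
    omega

lemma rlK (h2 : 2 ≤ h) (e : (b : ℤ) = 2 * h ^ 2 + 4) : Rl (2 * h + 2) b := by
  have h0 : 0 < h := by omega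
  let E := exK h0
  refine ⟨_, inferInstance, E.nt, E.G, E.conn, E.R.col, least_of (fun t ht => E.card_le ht)
    (E.short (r := 0) (by omega) [] [0, 1] (by decide) ?_), greatest_of (fun t ht => ?_)
    (E.tour h2 (Or.inr rfl) [1] [0] (by simp) ?_)⟩
  · have := E.kpair 0 1 rfl rfl rfl rfl
    simp only [List.map_nil, List.map_cons, this, sg, Ex.st]
    push_cast; omega
  · have := E.twin h2 0 rfl rfl (show ∀ e : Fin 2, ![(0 : ℤ), 1] e = 0 → e = 0 by decide) ht
    simp only [even_two, if_true, E, exK, Fin.sum_univ_two, Matrix.cons_val_zero,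
      Matrix.cons_val_one] at this
    push_cast at this
    nlinarith
  · have a1 := E.wx h 1 0 1 h rfl rfl (by unfold Nr; omega)
    have a2 := E.xw 1 (1 - h) 0 1 (h - 1) rfl rfl (by unfold Nr; omega)
    have a3 := E.wx (1 - h + 2 * h - 2) 0 0 0 (h - 1) rfl rfl (by unfold Nr; omega)
    have a4 := dz_pos E.conn (E.out 0 0)
    have a5 : dz E.G (.inr 0) (E.w 0) ≠ 1 := fun q => by
      have k : rd h (E.R.pos (.inr 0)) (E.R.pos (E.w 0)) = 0 :=
        (E.R.rdw _ 0).trans (rd_self h0 0)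
      rcases dz_adj.1 q with q | q | ⟨_, _, -, -, q⟩
      · omega
      · exact absurd q.1 (show ¬ (0 : ℤ) + 0 = 1 by decide)
      · exact q
    simp only [List.map_nil, List.map_cons, sg]
    omega

lemma rlGK (h2 : 2 ≤ h) (e : (b : ℤ) = 2 * h ^ 2 + 2 * h + 8) : Rl (2 * h + 4) b := by
  have h0 : 0 < h := by omega
  let E := exGK h0
  refine ⟨_, inferInstance, E.nt, E.G, E.conn, E.R.col, least_of (fun t ht => E.card_le ht)
    (E.short (r := h) (by omega) [2, 3] [0, 1] (by decide) ?_), greatest_of (fun t ht => ?_)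
    (E.tour h2 (Or.inl rfl) [1, 2, 0, 3] [] (by simp) ?_)⟩
  · have h1 := E.kpair 0 1 rfl rfl rfl rfl
    have h2 := E.pair 2 3 h ⟨by decide, by decide⟩ rfl rfl
    simp only [List.map_nil, List.map_cons, h1, h2]
    push_cast; omega
  · have := E.twin h2 0 rfl rfl (show ∀ e : Fin 4, ![(0 : ℤ), 1, 1, 1] e = 0 → e = 0 by decide) ht
    rw [if_pos (by decide), show ∑ e, E.η e = 3 from
      show ∑ e : Fin 4, ![(0 : ℤ), 1, 1, 1] e = 3 by decide] at this
    push_cast at this
    nlinarith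
  · have a1 := E.wx h 1 0 1 h rfl rfl (by unfold Nr; omega)
    have a2 := E.xx 1 2 0 h 2 h (by decide) (fun q => absurd q.2 (by decide)) rfl rfl rfl
      (by unfold Nr; omega)
    have a3 := E.xx 2 0 h 0 1 h (by decide) (fun q => absurd q.2 (by decide)) rfl rfl rfl
      (by unfold Nr; omega)
    have a4 := E.xx 0 3 0 (h + 1) 1 (h - 1) (by decide) (fun q => absurd q.2 (by decide)) rfl rfl
      rfl (by unfold Nr; omega)
    have a5 := E.xw 3 1 (h + 1) 1 h rfl rfl (by unfold Nr; omega)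
    have a6 := E.ww (1 + 2 * h - 2) 0 1 (by unfold Nr; omega)
    simp only [List.map_nil, List.map_cons, sg]
    omega

lemma rlGG (h2 : 2 ≤ h) (e : (b : ℤ) = 2 * h ^ 2 + 2 * h + 10) : Rl (2 * h + 4) b := by
  have h0 : 0 < h := by omega
  obtain ⟨r, hr⟩ : ∃ r : ℕ, h = r + 1 := ⟨h - 1, by omega⟩
  let E := exGG h0 r
  refine ⟨_, inferInstance, E.nt, E.G, E.conn, E.R.col, leastGG h0 (by omega),
    greatest_of (fun t ht => ?_) (E.tour h2 (Or.inl rfl) [1, 3] [2, 0] (by simp) ?_)⟩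
  · have := E.R.ring.up E.conn h0 (m := 4) (by decide) Sum.inr ![2 * h - 1, 0, r, r + 1]
      (fun k => by fin_cases k <;> simp <;> omega) (fun k => ?_) E.cov ht
    · push_cast at this
      nlinarith
    · refine (dz_adj.2 (E.R.adj1 (v := .inr k) rfl ((rho_zero h0).2 ?_))).le
      fin_cases k
      · exact dv (b := -1 - ((2 * h - 1 : ℕ) : ℤ)) (dvd_neg.2 (dvd_refl _)) (by omega)
      · exact dv (b := -1 + 1 - ((0 : ℕ) : ℤ)) (dvd_zero _) (by omega)
      · exact dv (b := r - ((r : ℕ) : ℤ)) (dvd_zero _) (by omega)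
      · exact dv (b := r + 1 - ((r + 1 : ℕ) : ℤ)) (dvd_zero _) (by omega)
  · have a1 := E.wx h 1 0 1 h rfl rfl (by unfold Nr; omega)
    have a2 := E.xx 1 3 0 (r + 1) 2 h (by decide) (fun q => absurd q.2 (by decide)) rfl rfl rfl
      (by unfold Nr; omega)
    have a3 := E.xw 3 1 (r + 1) 1 (h - 1) rfl rfl (by unfold Nr; omega)
    have a4 := E.wx (1 + 2 * h - 2) 2 r 1 h rfl rfl (by unfold Nr; omega)
    have a5 := E.xx 2 0 r (-1) 2 h (by decide) (fun q => absurd q.2 (by decide)) rfl rfl rfl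
      (by unfold Nr; omega)
    have a6 := E.xw 0 0 (-1) 1 1 rfl rfl (by unfold Nr; omega)
    simp only [List.map_nil, List.map_cons, sg]
    omega

lemma htG (h2 : 2 ≤ h) (e : (b : ℤ) = 2 * h ^ 2 + 6) : HT (2 * h + 2) b := by
  have h0 : 0 < h := by omega
  let E := exG h0
  refine ⟨_, inferInstance, E.nt, E.G, E.w 0, E.conn, E.R.col, leastG h0, ?_,
    E.tour h2 (Or.inr rfl) [1] [0] (by simp) ?_⟩
  · have := hubG h0
    change ∑ v, dz E.G (E.w 0) v ≤ _ at this
    omega
  · have a1 := E.wx h 1 0 1 h rfl rfl (by unfold Nr; omega)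
    have a2 := E.xw 1 (1 - h) 0 1 (h - 1) rfl rfl (by unfold Nr; omega)
    have a3 := E.wx (1 - h + 2 * h - 2) 0 (-1) 1 h rfl rfl (by unfold Nr; omega)
    have a4 := E.xw 0 0 (-1) 1 1 rfl rfl (by unfold Nr; omega)
    simp only [List.map_nil, List.map_cons, sg]
    omega

lemma Ex.w0 {m : ℕ} (E : Ex m h) (s c : ℤ) (e : Nr h (s - 0) c) : dz E.G (E.w s) (E.w 0) ≤ c :=
  e.eq E.h0 ▸ E.R.upw s 0

lemma htL (h2 : 2 ≤ h) (e : (b : ℤ) = 2 * h ^ 2 + 2) : HT (2 * h + 2) b := by
  have h0 : 0 < h := by omega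
  let E := exC h0
  have := E.nt
  refine ⟨_, inferInstance, inferInstance, leaf E.G (E.w 0), some (E.w 0), leaf_conn E.conn,
    leaf_col E.R.col, leaf_least E.conn (leastC h0), ?_,
    E.ltour h2 _ [none] [] (by simp) ?_⟩
  · have := hubC h0
    change ∑ v, dz E.G (E.w 0) v ≤ _ at this
    rw [leaf_sum E.conn, dz_self]
    omega
  · have a1 := E.ww 0 h h (by unfold Nr; omega)
    have a2 := E.ww 0 (1 - h) (h - 1) (by unfold Nr; omega)
    have a3 := E.ww (1 - h + 2 * h - 2) 0 (h - 1) (by unfold Nr; omega)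
    simp only [List.map_nil, List.map_cons, sg, Option.map_none, leaf_ss E.conn, leaf_sn E.conn,
      leaf_ns E.conn]
    omega

lemma htGL (h2 : 2 ≤ h) {r : ℕ} (hr : r + 1 ≤ h) (e : (b : ℤ) = 2 * h ^ 2 + 8 + 2 * r) :
    HT (2 * h + 2 + 2) b := by
  have h0 : 0 < h := by omega
  let E := exG h0
  refine ⟨_, inferInstance, inferInstance, leaf E.G (E.w r), some (E.w 0), leaf_conn E.conn,
    leaf_col E.R.col, leaf_least E.conn (leastG h0), ?_,
    E.ltour h2 _ [some 1] [some 0, none] (by simp) ?_⟩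
  · have h1 := hubG h0
    have h2 := E.w0 r r (by unfold Nr; omega)
    change ∑ v, dz E.G (E.w 0) v ≤ _ at h1
    rw [leaf_sum E.conn]
    omega
  · have a1 := E.wx h 1 0 1 h rfl rfl (by unfold Nr; omega)
    have a2 := E.xw 1 (1 - h) 0 1 (h - 1) rfl rfl (by unfold Nr; omega)
    have a3 := E.wx (1 - h + 2 * h - 2) 0 (-1) 1 h rfl rfl (by unfold Nr; omega)
    have a4 := E.wx r 0 (-1) 1 (r + 1) rfl rfl (by unfold Nr; omega)
    have a5 := E.ww r 0 r (by unfold Nr; omega)
    simp only [List.map_nil, List.map_cons, sg, Option.map_none, Option.map_some, leaf_ss E.conn,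
      leaf_sn E.conn, leaf_ns E.conn]
    omega

lemma htGGL (h2 : 2 ≤ h) {r c : ℕ} (hr : r + 2 ≤ h) (hc : c ≤ 1)
    (e : (b : ℤ) = 2 * h ^ 2 + 14 + 4 * r + 2 * c) : HT (2 * h + 4 + 2) b := by
  have h0 : 0 < h := by omega
  let E := exGG h0 r
  refine ⟨_, inferInstance, inferInstance, leaf E.G (E.w (-c)), some (E.w 0), leaf_conn E.conn,
    leaf_col E.R.col, leaf_least E.conn (leastGG h0 (by omega)), ?_,
    E.ltour h2 _ [some 1] [none, some 3, some 0, some 2] (by simp) ?_⟩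
  · have h1 := E.hub fun _ => rfl
    have h2 := E.w0 (-c) c (by unfold Nr; omega)
    have b0 : rd h 0 (E.π 0) = 1 := Nr.eq h0 (t := -1) (by unfold Nr; omega)
    have b1 : rd h 0 (E.π 1) = 0 := Nr.eq h0 (t := -1 + 1) (by unfold Nr; omega)
    have b2 : rd h 0 (E.π 2) = r := Nr.eq h0 (t := r) (by unfold Nr; omega)
    have b3 : rd h 0 (E.π 3) = r + 1 := Nr.eq h0 (t := r + 1) (by unfold Nr; omega)
    rw [Fin.sum_univ_four, b0, b1, b2, b3] at h1
    rw [leaf_sum E.conn]
    omega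
  · have a1 := E.wx h 1 0 1 h rfl rfl (by unfold Nr; omega)
    have a2 := E.xw 1 (1 - h) 0 1 (h - 1) rfl rfl (by unfold Nr; omega)
    have a3 := E.ww (-c) (1 - h + 2 * h - 2) (h - 1 + c) (by unfold Nr; omega)
    have a4 := E.wx (-c) 3 (r + 1) 1 (r + 1 + c) rfl rfl (by unfold Nr; omega)
    have a5 := E.xx 3 0 (r + 1) (-1) 2 (r + 2) (by decide) (fun q => absurd q.2 (by decide)) rfl
      rfl rfl (by unfold Nr; omega)
    have a6 := E.xx 0 2 (-1) r 2 (r + 1) (by decide) (fun q => absurd q.2 (by decide)) rfl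
      rfl rfl (by unfold Nr; omega)
    have a7 := E.xw 2 0 r 1 r rfl rfl (by unfold Nr; omega)
    simp only [List.map_nil, List.map_cons, sg, Option.map_none, Option.map_some, leaf_ss E.conn,
      leaf_sn E.conn, leaf_ns E.conn]
    omega

lemma htLL (h0 : 0 < h) (e : (b : ℤ) = 2 * h ^ 2 + 6) : HT (2 * h + 2 + 2) b := by
  let E := exC h0
  have c1 := leaf_conn (z := E.w 0) E.conn
  have a1 := E.ww 0 h h (by unfold Nr; omega)
  have a2 := E.ww 0 (1 - h) (h - 1) (by unfold Nr; omega)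
  have a3 := E.ww (-1) (1 - h + 2 * h - 2) h (by unfold Nr; omega)
  have a4 := E.ww (-1) 0 1 (by unfold Nr; omega)
  refine ⟨_, inferInstance, inferInstance, leaf (leaf E.G (E.w 0)) (some (E.w (-1))),
    some (some (E.w 0)), leaf_conn c1, leaf_col (leaf_col E.R.col),
    leaf_least c1 (leaf_least E.conn (leastC h0)), ?_, ?_⟩
  · have h1 := hubC h0
    have h2 := E.w0 (-1) 1 (by unfold Nr; omega)
    change ∑ v, dz E.G (E.w 0) v ≤ _ at h1
    rw [leaf_sum c1, leaf_sum E.conn, dz_self, leaf_ss E.conn]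
    omega
  by_cases h2 : 2 ≤ h
  · refine tour (leaf_conn c1) h2 ((E.R.sec.leaf E.conn).leaf c1) (Or.inr rfl) [some none] [none]
      (by simp) (by simp) ?_
    change _ ≤ _ + sg _ (some (some (E.w _))) _ (some (some (E.w _))) +
      sg _ (some (some (E.w _))) _ (some (some (E.w _)))
    simp only [sg, leaf_ss c1, leaf_sn c1, leaf_ns c1, leaf_ss E.conn, leaf_sn E.conn,
      leaf_ns E.conn]
    omega
  · refine sp_ge (leaf_conn c1) (x := some (some (E.w 0)))
      (T := [some (some (E.w h)), some none, none]) ?_ ?_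
    · simpa using E.R.sec.ne h0 (s := 0) (t := h) (by omega) (by omega) (by omega)
    · rw [dz_comm] at a4
      obtain rfl : h = 1 := by omega
      simp only [sg, leaf_ss c1, leaf_sn c1, leaf_ns c1, leaf_ss E.conn, leaf_sn E.conn,
        dz_comm (E.w (-1))]
      omega

end Pool.Agent.Lib.MP_08a7f3_co
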