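import Pool.Agent.Lib.MP_08a7f3_co.Op.Ring

/-! Periodic spanning walks, folds onto a ring, and the bound for a long chord. -/

namespace Pool.Agent.Lib.MP_08a7f3_co

variable {α : Type} {G : SimpleGraph α} {a h : ℕ} {φ : ℕ → α}

/-- a periodic walk through all vertices -/
structure Per (G : SimpleGraph α) (a : ℕ) (φ : ℕ → α) : Prop where
  pos : 0 < a
  adj : ∀ i, G.Adj (φ i) (φ (i + 1))
  per : ∀ i, φ (i + a) = φ i
  sur : Function.Surjective φ

lemma Per.cov (P : Per G a φ) (v : α) : ∃ i < a, v = φ i := by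
  obtain ⟨i, rfl⟩ := P.sur v
  exact ⟨i % a, Nat.mod_lt _ P.pos, (Function.Periodic.map_mod_nat P.per i).symm⟩

lemma Per.shift (P : Per G a φ) (c : ℕ) : Per G a fun i => φ (i + c) := by
  refine ⟨P.pos, fun i => ?_, fun i => ?_, fun v => ?_⟩
  · rw [add_right_comm]; exact P.adj _
  · rw [add_right_comm]; exact P.per _
  · obtain ⟨i, rfl⟩ := P.sur v
    obtain ⟨b, rfl⟩ : ∃ b, a = b + 1 := ⟨a - 1, by have := P.pos; omega⟩
    refine ⟨i + c * b, ?_⟩
    have := Function.Periodic.nat_mul P.per c i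
    simpa only [Nat.cast_id, mul_add, mul_one, add_assoc] using this

lemma Per.st (P : Per G a φ) (i : ℕ) : dz G (φ i) (φ (i + 1)) ≤ 1 := (dz_adj.2 (P.adj i)).le

lemma Per.ring (P : Per G a φ) : Ring G a φ := ⟨fun i _ => P.st i, by simpa using P.per 0⟩

lemma exists_per (hG : G.Connected) (ha : a ∈ spectrum G) (h0 : 0 < a) : ∃ φ, Per G a φ := by
  have w : ∀ (x : α) (T : List α) (y : α), ∃ p : G.Walk x y, p.length = seg G x T y ∧
      ∀ v ∈ x :: T, v ∈ p.support := by
    intro x T y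
    induction T generalizing x with
    | nil =>
      obtain ⟨p, hp⟩ := hG.exists_walk_length_eq_dist x y
      exact ⟨p, hp, by simp⟩
    | cons c T ih =>
      obtain ⟨p, hp⟩ := hG.exists_walk_length_eq_dist x c
      obtain ⟨q, q1, q2⟩ := ih c
      refine ⟨p.append q, by simp [seg, hp, q1], fun v hv => ?_⟩
      rw [SimpleGraph.Walk.mem_support_append_iff]
      rcases List.mem_cons.1 hv with rfl | hv
      · exact Or.inl p.start_mem_support
      · exact Or.inr (q2 v hv)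
  obtain ⟨l, -, l2, e⟩ := ha
  change a = cl G l at e
  rcases l with _ | ⟨x, T⟩
  · simp [cl] at e; omega
  obtain ⟨p, p1, p2⟩ := w x T x
  rw [cl_cons, ← p1] at e
  have z : p.getVert a = p.getVert 0 := by rw [e, p.getVert_length, p.getVert_zero]
  refine ⟨fun i => p.getVert (i % a), h0, fun i => ?_, fun i => by simp, fun v => ?_⟩
  · have h1 := Nat.mod_lt i h0
    have k := p.adj_getVert_succ (i := i % a) (by omega)
    rw [Nat.add_mod]
    by_cases q : i % a + 1 = a
    · have : (i % a + 1 % a) % a = 0 := by rw [Nat.add_mod_mod, q, Nat.mod_self]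
      rw [this, ← z]
      rwa [q] at k
    · rwa [Nat.add_mod_mod, Nat.mod_eq_of_lt (a := i % a + 1) (by omega)]
  · obtain ⟨n, n1, n2⟩ := SimpleGraph.Walk.mem_support_iff_exists_getVert.1 (p2 v (l2 v))
    by_cases q : n = a
    · exact ⟨0, by simp only [Nat.zero_mod, ← z, ← q, n1]⟩
    · exact ⟨n, by simp only [Nat.mod_eq_of_lt (show n < a by omega), n1]⟩

lemma Per.par (P : Per G a φ) (hb : G.Colorable 2) (s t : ℕ) :
    (φ s = φ t → s % 2 = t % 2) ∧ (G.Adj (φ s) (φ t) → s % 2 ≠ t % 2) := by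
  obtain ⟨C⟩ := hb
  have k : ∀ {u v}, G.Adj u v → (C u : ℕ) + C v = 1 := fun {u v} e => by
    have h1 := C.valid e
    have h2 := (C u).2
    have h3 := (C v).2
    rw [Ne, Fin.ext_iff] at h1
    omega
  have q : ∀ i, (C (φ i) : ℕ) % 2 = (C (φ 0) + i) % 2 := fun i => by
    induction i with
    | zero => rfl
    | succ i ih =>
      have := k (P.adj i)
      omega
  have h1 := q s
  have h2 := q t
  refine ⟨fun e => ?_, fun e => ?_⟩
  · rw [e] at h1; omega
  · have := k e; omega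

lemma rd_tri (h0 : 0 < h) (s t u : ℤ) : rd h s u ≤ rd h s t + rd h t u := by
  have := rho_add h0 (s - t) (t - u)
  rwa [sub_add_sub_cancel] at this

lemma rd_self (h0 : 0 < h) (s : ℤ) : rd h s s = 0 := (rho_zero h0).2 (by simp)

/-- a map to the ring that does not increase distances gives points over the ring -/
lemma fold (hG : G.Connected) (h0 : 0 < h) {π : α → ℤ}
    (hπ : ∀ u v, G.Adj u v → rd h (π u) (π v) ≤ 1) (hc : ∀ k, ∃ v, (2 * h : ℤ) ∣ π v - k) (z : α) :
    ∃ ω, Sec G h ω ∧ ∀ y ≠ z, π y = π z → ∀ s, y ≠ ω s ∧ rho h s ≤ dz G (ω s) y := by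
  have lip : ∀ u v, rd h (π u) (π v) ≤ dz G u v := fun u =>
    dz_lip hG (rd_self h0 _).le fun v w e => (rd_tri h0 _ (π v) _).trans (by
      have := hπ v w e; omega)
  choose f hf using hc
  let ω : ℤ → α := fun k => if (2 * h : ℤ) ∣ k then z else f (k + π z)
  have k1 : ∀ k, (2 * h : ℤ) ∣ π (ω k) - (k + π z) := fun k => by
    simp only [ω]
    split_ifs with e
    · exact dv (dvd_neg.2 e) (by ring)
    · exact hf _
  refine ⟨ω, fun s t => ?_, fun y hy e s => ⟨fun q => ?_, ?_⟩⟩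
  · exact (rho_congr h0 (dv (dvd_sub (k1 t) (k1 s)) (by ring))).trans_le (lip _ _)
  · have := k1 s
    rw [← q, e] at this
    have : (2 * h : ℤ) ∣ s := dv (dvd_neg.2 this) (by ring)
    exact hy (by simpa only [ω, this, if_true] using q)
  · exact (rho_congr h0 (dv (dvd_neg.2 (k1 s)) (by rw [e]; ring))).trans_le (lip _ _)

lemma low_cyc [Finite α] (hG : G.Connected) (h2 : 2 ≤ h) {ω : ℤ → α} (S : Sec G h ω) :
    ∃ t ∈ spectrum G, 2 * (h : ℤ) ^ 2 - 2 * h + 2 ≤ t := by
  have h0 : 0 < h := by omega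
  refine tour hG h2 S (Or.inl rfl) [] [] (by simp) (by simp) ?_
  have a1 := S.le h0 h 1 (j := h - 1) (by simp) (by rw [abs_le]; omega)
  have a2 := S.le h0 (1 + 2 * h - 2) 0 (j := -1) (dv (dvd_refl _) (by ring))
    (by rw [abs_le]; omega)
  rw [abs_of_nonneg (by omega)] at a1
  simp only [sg, abs_neg, abs_one] at a2 ⊢
  omega

lemma low_two [Finite α] (hG : G.Connected) (h2 : 2 ≤ h) {ω : ℤ → α} (S : Sec G h ω) {y : α}
    (hy : ∀ s, y ≠ ω s ∧ rho h s ≤ dz G (ω s) y) : ∃ t ∈ spectrum G, 2 * (h : ℤ) ^ 2 ≤ t := by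
  have h0 : 0 < h := by omega
  refine tour hG h2 S (Or.inr rfl) [y] [] (by simp) (by simpa using fun s => (hy s).1) ?_
  have a1 := (hy h).2
  have a2 := (hy (1 - h)).2
  have a3 := S.le h0 (1 - h + 2 * h - 2) 0 (j := h - 1) (dv (dvd_zero _) (by ring))
    (by rw [abs_le]; omega)
  rw [rho_eq h0 (j := h) (by simp) (by simp), abs_of_nonneg (by omega)] at a1
  rw [rho_eq h0 (j := 1 - h) (by simp) (by rw [abs_le]; omega), abs_of_nonpos (by omega),
    dz_comm] at a2
  rw [abs_of_nonneg (by omega)] at a3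
  simp only [sg]
  omega

lemma sum_up (f : ℕ → ℤ) (p n : ℕ) (c ε : ℤ) (hf : ∀ i < n, f (p + i) ≤ c + ε * i) :
    2 * ∑ i ∈ Finset.range (p + n), f i ≤
      2 * ∑ i ∈ Finset.range p, f i + 2 * c * n + ε * n * (n - 1) := by
  induction n with
  | zero => simp
  | succ n ih =>
    have h1 := ih fun i hi => hf i (by omega)
    have h2 := hf n (by omega)
    rw [← add_assoc, Finset.sum_range_succ]
    push_cast
    nlinarith

/-- two points of the walk that are far apart on the walk and close in the graph -/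
lemma Per.big [Finite α] (hG : G.Connected) {m l : ℕ} (P : Per G (2 * m) φ) (l1 : 4 ≤ l)
    (l2 : l + 4 ≤ 2 * m) (e : dz G (φ 0) (φ l) ≤ 1) {t : ℕ} (ht : t ∈ spectrum G) :
    (t : ℤ) ≤ 2 * m ^ 2 - 6 * m + 14 := by
  classical
  have := Fintype.ofFinite α
  choose σ s1 s2 using P.cov
  have inj : Function.Injective σ := fun u v q => by rw [s2 u, s2 v, q]
  have k0 : ∑ v, dz G (φ 0) v ≤ ∑ i ∈ Finset.range (2 * m), dz G (φ 0) (φ i) := by
    rw [Finset.sum_congr rfl fun v _ => congrArg (dz G (φ 0)) (s2 v),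
      ← Finset.sum_image (f := fun i => dz G (φ 0) (φ i)) inj.injOn]
    refine Finset.sum_le_sum_of_subset_of_nonneg (fun i hi => ?_) fun _ _ _ => dz_nn _ _
    obtain ⟨v, -, rfl⟩ := Finset.mem_image.1 hi
    exact Finset.mem_range.2 (s1 v)
  have hb := hub_le hG (φ 0) ht
  have R := P.ring
  obtain ⟨k1, n1, k2, n2, e1, e2, e3⟩ : ∃ k1 n1 k2 n2 : ℕ, k1 + n1 = l + 1 ∧
      k1 + n1 + k2 + n2 = 2 * m ∧ (k1 = n1 ∧ k2 + 2 = n2 ∨ k1 = n1 + 1 ∧ k2 + 1 = n2) :=
    ⟨(l + 2) / 2, (l + 1) / 2, (2 * m - l + 2) / 2 - 2, (2 * m - l + 1) / 2, by omega, by omega,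
      by omega⟩
  have b1 := sum_up (fun i => dz G (φ 0) (φ i)) 0 k1 0 1 fun i hi => by
    have := R.le' hG (Nat.zero_le (0 + i)) (by omega)
    push_cast at this; omega
  have b2 := sum_up (fun i => dz G (φ 0) (φ i)) k1 n1 n1 (-1) fun i hi => by
    have h1 := R.le' hG (s := k1 + i) (t := l) (by omega) (by omega)
    have h2 := dz_tri hG (φ 0) (φ l) (φ (k1 + i))
    rw [dz_comm] at h1
    push_cast at h1; omega
  have b3 := sum_up (fun i => dz G (φ 0) (φ i)) (k1 + n1) k2 2 1 fun i hi => by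
    have h1 := R.le' hG (s := l) (t := k1 + n1 + i) (by omega) (by omega)
    have h2 := dz_tri hG (φ 0) (φ l) (φ (k1 + n1 + i))
    push_cast at h1; omega
  have b4 := sum_up (fun i => dz G (φ 0) (φ i)) (k1 + n1 + k2) n2 n2 (-1) fun i hi => by
    have := R.le' hG (Nat.zero_le (k1 + n1 + k2 + i)) (by omega)
    push_cast at this; omega
  rw [e2] at b4
  simp only [zero_add, Finset.range_zero, Finset.sum_empty] at b1
  rcases e3 with ⟨rfl, rfl⟩ | ⟨rfl, rfl⟩
  · obtain rfl : m = k1 + k2 + 1 := by omega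
    have c1 : (3 : ℤ) ≤ k1 := by omega
    have c2 : (1 : ℤ) ≤ k2 := by omega
    push_cast at *
    nlinarith [mul_nonneg (sub_nonneg.2 c1) (sub_nonneg.2 c2)]
  · obtain rfl : m = n1 + k2 + 1 := by omega
    have c1 : (2 : ℤ) ≤ n1 := by omega
    have c2 : (1 : ℤ) ≤ k2 := by omega
    push_cast at *
    nlinarith [mul_nonneg (sub_nonneg.2 c1) (sub_nonneg.2 c2)]

end Pool.Agent.Lib.MP_08a7f3_co
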