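import Pool.Agent.Lib.MP_08a7f3_co.Op.Fold

/-! The largest element of the spectrum of a bipartite graph. -/

namespace Pool.Agent.Lib.MP_08a7f3_co

variable {α : Type} {G : SimpleGraph α} {a m : ℕ} {φ : ℕ → α}

lemma Per.top (hG : G.Connected) (P : Per G (2 * m) φ) {t : ℕ} (ht : t ∈ spectrum G) :
    (t : ℤ) ≤ 2 * m ^ 2 - 2 * m + 2 := by
  have := P.ring.up hG (by have := P.pos; omega) (m := 0) (by simp) Fin.elim0 Fin.elim0
    (fun k => k.elim0) (fun k => k.elim0) (fun v => Or.inl (P.cov v)) ht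
  push_cast at this
  nlinarith

lemma Per.two (hG : G.Connected) (P : Per G (2 * m) φ) {j : ℕ} (hm : 5 ≤ m) (j1 : 3 ≤ j)
    (j2 : j + 3 ≤ 2 * m) (c0 : G.Adj (φ 0) (φ 3)) (cj : G.Adj (φ j) (φ (j + 3))) {t : ℕ}
    (ht : t ∈ spectrum G) : (t : ℤ) ≤ 2 * m ^ 2 - 6 * m + 14 := by
  obtain ⟨h, rfl⟩ : ∃ h, m = h + 2 := ⟨m - 2, by omega⟩
  obtain ⟨i, rfl⟩ : ∃ i, j = i + 2 := ⟨j - 2, by omega⟩
  let F : ℕ → α := fun k => if k = 0 then φ 0 else if k ≤ i then φ (k + 2) else φ (k + 4)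
  have f0 : F 0 = φ 0 := rfl
  have f1 : ∀ k, 0 < k → k ≤ i → F k = φ (k + 2) := fun k a b => by simp [F, a.ne', b]
  have f2 : ∀ k, i < k → F k = φ (k + 4) := fun k a => by
    simp only [F]; rw [if_neg (by omega), if_neg (by omega)]
  have R : Ring G (2 * h) F := ⟨fun k hk => ?_, ?_⟩
  · have := R.up hG (by omega) (m := 4) (by decide) ![φ 1, φ 2, φ (i + 3), φ (i + 4)]
      ![0, 1, i, i + 1] (fun k => by fin_cases k <;> simp <;> omega) (fun k => ?_) (fun v => ?_) ht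
    · push_cast at this ⊢
      nlinarith
    · fin_cases k
      · exact (dz_comm _ _).trans_le (P.st 0)
      · simpa [f1 1 one_pos (by omega)] using P.st 2
      · simpa [f1 i (by omega) le_rfl] using (dz_comm _ _).trans_le (P.st (i + 2))
      · simpa [f2 (i + 1) (by omega)] using P.st (i + 4)
    · obtain ⟨k, hk, rfl⟩ := P.cov v
      by_cases a0 : k = 0
      · exact Or.inl ⟨0, by omega, by rw [a0]; rfl⟩
      by_cases a1 : k = 1
      · exact Or.inr ⟨0, by rw [a1]; rfl⟩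
      by_cases a2 : k = 2
      · exact Or.inr ⟨1, by rw [a2]; rfl⟩
      by_cases a3 : k = i + 3
      · exact Or.inr ⟨2, by rw [a3]; rfl⟩
      by_cases a4 : k = i + 4
      · exact Or.inr ⟨3, by rw [a4]; rfl⟩
      by_cases a5 : k ≤ i + 2
      · exact Or.inl ⟨k - 2, by omega, by rw [f1 _ (by omega) (by omega)]; congr 1; omega⟩
      · exact Or.inl ⟨k - 4, by omega, by rw [f2 _ (by omega)]; congr 1; omega⟩
  · by_cases a0 : k = 0
    · rw [a0, f0, f1 _ (by omega) (by omega)]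
      exact (dz_adj.2 c0).le
    by_cases a1 : k + 1 ≤ i
    · rw [f1 _ (by omega) (by omega), f1 _ (by omega) a1]
      exact P.st (k + 2)
    by_cases a2 : k = i
    · rw [a2, f1 _ (by omega) le_rfl, f2 _ (by omega)]
      exact (dz_adj.2 cj).le
    · rw [f2 _ (by omega), f2 _ (by omega)]
      exact P.st (k + 4)
  · rw [f2 _ (by omega), f0, ← P.per 0]
    congr 1; omega

lemma Per.one (hG : G.Connected) (P : Per G (2 * m) φ) (hm : 2 ≤ m) (c0 : G.Adj (φ 0) (φ 3))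
    {t : ℕ} (ht : t ∈ spectrum G) : (t : ℤ) ≤ 2 * (m - 1) ^ 2 + 6 := by
  obtain ⟨h, rfl⟩ : ∃ h, m = h + 1 := ⟨m - 1, by omega⟩
  let F : ℕ → α := fun k => if k = 0 then φ 0 else φ (k + 2)
  have f0 : F 0 = φ 0 := rfl
  have f1 : ∀ k, 0 < k → F k = φ (k + 2) := fun k a => by simp [F, a.ne']
  have R : Ring G (2 * h) F := ⟨fun k hk => ?_, ?_⟩
  · have := R.up hG (by omega) (m := 2) (by decide) ![φ 1, φ 2]
      ![0, 1] (fun k => by fin_cases k <;> simp; omega) (fun k => ?_) (fun v => ?_) ht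
    · push_cast at this ⊢
      nlinarith
    · fin_cases k
      · exact (dz_comm _ _).trans_le (P.st 0)
      · exact P.st 2
    · obtain ⟨k, hk, rfl⟩ := P.cov v
      by_cases a0 : k = 0
      · exact Or.inl ⟨0, by omega, by rw [a0]; rfl⟩
      by_cases a1 : k = 1
      · exact Or.inr ⟨0, by rw [a1]; rfl⟩
      by_cases a2 : k = 2
      · exact Or.inr ⟨1, by rw [a2]; rfl⟩
      · exact Or.inl ⟨k - 2, by omega, by rw [f1 _ (by omega)]; congr 1; omega⟩
  · by_cases a0 : k = 0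
    · rw [a0]
      exact (dz_adj.2 c0).le
    · rw [f1 _ (by omega), f1 _ (by omega)]
      exact P.st (k + 2)
  · rw [f1 _ (by omega), f0, ← P.per 0]
    congr 1; omega

lemma Per.skip (hG : G.Connected) (P : Per G a φ) (ha : 5 ≤ a) (e1 : φ 1 = φ 3) (e2 : φ 2 = φ 4) :
    ∃ t ∈ spectrum G, t < a := by
  obtain ⟨L, rfl⟩ : ∃ L, a = L + 2 := ⟨a - 2, by omega⟩
  let F : ℕ → α := fun k => if k = 0 then φ 0 else φ (k + 2)
  have f0 : F 0 = φ 0 := rfl
  have f1 : ∀ k, 0 < k → F k = φ (k + 2) := fun k a => by simp [F, a.ne']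
  have R : Ring G L F := ⟨fun k hk => ?_, ?_⟩
  · refine (R.short hG (r := 0) (by omega) [] [] (a := L) (fun v => Or.inl ?_) ?_).imp
      fun t q => ⟨q.1, by omega⟩
    · obtain ⟨k, hk, rfl⟩ := P.cov v
      by_cases a0 : k = 0
      · exact ⟨0, by omega, by rw [a0]; rfl⟩
      by_cases a1 : k = 1
      · exact ⟨1, by omega, by rw [a1]; exact e1⟩
      by_cases a2 : k = 2
      · exact ⟨2, by omega, by rw [a2]; exact e2⟩
      · exact ⟨k - 2, by omega, by rw [f1 _ (by omega)]; congr 1; omega⟩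
    · have h1 := R.st 0 (by omega)
      have h2 := R.st (L - 1) (by omega)
      rw [show L - 1 + 1 = L by omega, R.cl] at h2
      simp only [sg]; omega
  · by_cases a0 : k = 0
    · rw [a0, f0, f1 _ (by omega), ← e1]
      exact P.st 0
    · rw [f1 _ (by omega), f1 _ (by omega)]
      exact P.st (k + 2)
  · rw [f1 _ (by omega), f0, ← P.per 0]
    congr 1; omega

/-- without long chords only few pairs of points of the walk are equal or adjacent -/
lemma Per.cls (P : Per G (2 * m) φ) (hb : G.Colorable 2)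
    (nb : ∀ s l, 4 ≤ l → l + 4 ≤ 2 * m → ¬ dz G (φ s) (φ (s + l)) ≤ 1) {C : ℕ → Prop}
    (hC : ∀ i, G.Adj (φ i) (φ (i + 3)) → C i) {s t : ℕ} (st : s < t) (ta : t < 2 * m) :
    (φ s = φ t → t = s + 2 ∧ C s ∧ C (s + (2 * m - 1)) ∨ t + 2 = s + 2 * m ∧ C t) ∧
    (G.Adj (φ s) (φ t) → t = s + 1 ∨ t = s + 3 ∧ C s ∨ s = 0 ∧ t + 1 = 2 * m ∨
      t + 3 = s + 2 * m ∧ C t) := by
  have pr := P.par hb s t
  have sm : dz G (φ s) (φ t) ≤ 1 → t ≤ s + 3 ∨ s + 2 * m ≤ t + 3 := fun e => by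
    by_contra q
    exact nb s (t - s) (by omega) (by omega) (by rwa [show s + (t - s) = t by omega])
  have e2 : ∀ i, φ i = φ (i + 2) → C i := fun i e => hC i (e ▸ P.adj (i + 2))
  refine ⟨fun e => ?_, fun e => ?_⟩
  · have h1 := pr.1 e
    have h2 := sm (by rw [e, dz_self]; omega)
    by_cases q : t = s + 2
    · refine Or.inl ⟨q, e2 s (q ▸ e), hC _ ?_⟩
      have := P.adj (s + (2 * m - 1))
      rw [show s + (2 * m - 1) + 1 = s + 2 * m by omega, P.per, e] at this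
      rwa [show s + (2 * m - 1) + 3 = t + 2 * m by omega, P.per]
    · have q' : t + 2 = s + 2 * m := by omega
      exact Or.inr ⟨q', e2 t (by rw [q', P.per, e])⟩
  · have h1 := pr.2 e
    have h2 := sm (dz_adj.2 e).le
    by_cases q : t = s + 3
    · exact Or.inr (Or.inl ⟨q, hC s (q ▸ e)⟩)
    by_cases q' : t + 3 = s + 2 * m
    · exact Or.inr (Or.inr (Or.inr ⟨q', hC t (by rw [q', P.per]; exact e.symm)⟩))
    omega

lemma Per.fold (hG : G.Connected) (P : Per G a φ) {h : ℕ} (h0 : 0 < h) {ψ : ℕ → ℤ}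
    (k1 : ∀ s t, s < t → t < a → φ s = φ t → ψ s = ψ t)
    (k2 : ∀ s t, s < t → t < a → G.Adj (φ s) (φ t) → rd h (ψ s) (ψ t) ≤ 1)
    (k3 : ∀ i < 2 * h, ∃ s < a, ψ s = (i : ℕ)) {z : ℕ} (hz : z < a) : ∃ ω, Sec G h ω ∧
      ∀ y < a, φ y ≠ φ z → ψ y = ψ z → ∀ s, φ y ≠ ω s ∧ rho h s ≤ dz G (ω s) (φ y) := by
  choose σ s1 s2 using P.cov
  have q : ∀ s < a, ψ (σ (φ s)) = ψ s := fun s hs => by
    rcases lt_trichotomy (σ (φ s)) s with e | e | e
    · exact k1 _ _ e hs (s2 _).symm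
    · rw [e]
    · exact (k1 _ _ e (s1 _) (s2 _)).symm
  refine (MP_08a7f3_co.fold hG h0 (π := fun v => ψ (σ v)) (fun u v e => ?_) (fun k => ?_)
    (φ z)).imp fun ω S => ⟨S.1, fun y hy e e' => S.2 _ e (by simp only [q y hy, q z hz, e'])⟩
  · rcases lt_trichotomy (σ u) (σ v) with c | c | c
    · exact k2 _ _ c (s1 v) (s2 u ▸ s2 v ▸ e)
    · simp only [c, rd_self h0]; omega
    · rw [rd, rho_comm h0]
      exact k2 _ _ c (s1 u) (s2 u ▸ s2 v ▸ e.symm)
  · obtain ⟨i, hi⟩ := cov_fin h0 k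
    obtain ⟨s, hs, e⟩ := k3 i i.2
    exact ⟨φ s, by simpa only [q s hs, e] using hi⟩

lemma rd_one {h : ℕ} (h0 : 0 < h) {s t : ℤ} (e : s = t + 1 ∨ t = s + 1 ∨ t + 1 = s + 2 * h) :
    rd h s t ≤ 1 := by
  rcases e with e | e | e
  · simpa [rd] using rho_le h0 (k := s - t) (j := 1) (dv (dvd_zero _) (by omega))
  · simpa [rd] using rho_le h0 (k := s - t) (j := -1) (dv (dvd_zero _) (by omega))
  · simpa [rd] using rho_le h0 (k := s - t) (j := 1) (dv (dvd_neg.2 (dvd_refl _)) (by omega))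

theorem nec [Finite α] (hG : G.Connected) (hb : G.Colorable 2) (hm : 5 ≤ m)
    (ha : 2 * m ∈ spectrum G) (ha' : ∀ t ∈ spectrum G, 2 * m ≤ t) {b : ℕ} (h1 : b ∈ spectrum G)
    (h2 : ∀ t ∈ spectrum G, t ≤ b) : (b : ℤ) ≤ 2 * m ^ 2 - 6 * m + 14 ∨
      2 * ((m : ℤ) - 1) ^ 2 ≤ b ∧ (b : ℤ) ≤ 2 * (m - 1) ^ 2 + 6 ∨
      (b : ℤ) = 2 * m ^ 2 - 2 * m + 2 := by
  obtain ⟨φ, P⟩ := exists_per hG ha (by omega)
  by_contra hc
  simp only [not_or] at hc
  obtain ⟨n1, n2, n3⟩ := hc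
  have nb : ∀ φ, Per G (2 * m) φ → ∀ s l, 4 ≤ l → l + 4 ≤ 2 * m →
      ¬ dz G (φ s) (φ (s + l)) ≤ 1 := fun φ P s l l1 l2 e =>
    n1 ((P.shift s).big hG l1 l2 (by simpa only [zero_add, add_comm l] using e) h1)
  have n4 : ∀ i j, 3 ≤ j → j + 3 ≤ 2 * m → G.Adj (φ i) (φ (i + 3)) →
      ¬ G.Adj (φ (i + j)) (φ (i + j + 3)) := fun i j j1 j2 c0 cj =>
    n1 ((P.shift i).two hG hm j1 j2 (by simpa only [zero_add, add_comm 3] using c0)
      (by simpa only [add_comm j i, add_comm (j + 3) i, add_assoc] using cj) h1)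
  by_cases ex : ∃ c, G.Adj (φ c) (φ (c + 3))
  · obtain ⟨c, c0, hc⟩ : ∃ c, G.Adj (φ c) (φ (c + 3)) ∧
        ∀ t, 3 ≤ t → t < 2 * m → ¬ G.Adj (φ (c + t)) (φ (c + t + 3)) := by
      obtain ⟨c, c0⟩ := ex
      have pp : ∀ i j, j = i + 2 * m → (G.Adj (φ j) (φ (j + 3)) ↔ G.Adj (φ i) (φ (i + 3))) := by
        rintro i _ rfl
        rw [add_right_comm, P.per, P.per]
      by_cases a2 : G.Adj (φ (c + (2 * m - 2))) (φ (c + (2 * m - 2) + 3))
      · refine ⟨_, a2, fun t t1 t2 => ?_⟩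
        by_cases q : t + 3 ≤ 2 * m
        · exact n4 _ t t1 q a2
        · rw [pp (c + (t - 2)) _ (by omega)]
          exact n4 c _ (by omega) (by omega) c0
      by_cases a1 : G.Adj (φ (c + (2 * m - 1))) (φ (c + (2 * m - 1) + 3))
      · refine ⟨_, a1, fun t t1 t2 => ?_⟩
        by_cases q : t + 3 ≤ 2 * m
        · exact n4 _ t t1 q a1
        · rw [pp (c + (t - 1)) _ (by omega)]
          by_cases q' : t - 1 = 2 * m - 2
          · exact q' ▸ a2
          · exact n4 c _ (by omega) (by omega) c0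
      · refine ⟨c, c0, fun t t1 t2 => ?_⟩
        by_cases q : t + 3 ≤ 2 * m
        · exact n4 _ t t1 q c0
        by_cases q' : t = 2 * m - 2
        · exact q' ▸ a2
        · exact (show t = 2 * m - 1 by omega) ▸ a1
    have Q := P.shift c
    have cl := fun s t => Q.cls hb (nb _ Q) (C := fun i => ¬ (3 ≤ i ∧ i < 2 * m)) (s := s) (t := t)
      fun i e q => hc i q.1 q.2 (by simpa only [add_comm i c, add_comm (i + 3) c, add_assoc] using e)
    have up := Q.one hG (by omega) (by simpa only [zero_add, add_comm 3] using c0) h1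
    obtain ⟨h, rfl⟩ : ∃ h, m = h + 1 := ⟨m - 1, by omega⟩
    have fo := fun z => Q.fold hG (h := h) (by omega)
      (ψ := fun i => if i ≤ 2 then (i : ℤ) else i - 2) (z := z) (fun s t st ta e => by
        have := (cl s t st ta).1 e
        split_ifs <;> omega) (fun s t st ta e => by
        have := (cl s t st ta).2 e
        apply rd_one (by omega)
        split_ifs <;> omega) fun i hi => by
        by_cases q : i ≤ 2
        · exact ⟨i, by omega, if_pos q⟩
        · exact ⟨i + 2, by omega, by rw [if_neg (by omega)]; omega⟩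
    obtain ⟨t, ht, q⟩ : ∃ t ∈ spectrum G, 2 * (h : ℤ) ^ 2 ≤ t := by
      by_cases e1 : φ (1 + c) = φ (3 + c)
      · by_cases e2 : φ (2 + c) = φ (4 + c)
        · obtain ⟨t, ht, q⟩ := Q.skip hG (by omega) e1 e2
          exact absurd (ha' t ht) (by omega)
        · obtain ⟨ω, S, hω⟩ := fo 4 (by omega)
          exact low_two hG (by omega) S (hω 2 (by omega) e2 (by simp))
      · obtain ⟨ω, S, hω⟩ := fo 3 (by omega)
        exact low_two hG (by omega) S (hω 1 (by omega) e1 (by simp))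
    have := h2 t ht
    refine n2 ⟨?_, up⟩
    push_cast
    rw [add_sub_cancel_right]; omega
  · have cl := fun s t => P.cls hb (nb _ P) (C := fun _ => False) (s := s) (t := t)
      fun i e => ex ⟨i, e⟩
    obtain ⟨ω, S, -⟩ := P.fold hG (h := m) (by omega) (ψ := fun i => i) (z := 0)
      (fun s t st ta e => by simpa using (cl s t st ta).1 e) (fun s t st ta e => by
        have := (cl s t st ta).2 e
        apply rd_one (by omega)
        simp only [and_false, or_false, false_or] at this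
        omega) (fun i hi => ⟨i, hi, rfl⟩) (by omega)
    obtain ⟨t, ht, q⟩ := low_cyc hG (by omega) S
    have := h2 t ht
    have := P.top hG h1
    omega

end Pool.Agent.Lib.MP_08a7f3_co
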