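import Pool.Agent.Lib.MP_08a7f3_co.Op.Fam
import Pool.Agent.Lib.MP_08a7f3_co.Op.Nec
import Pool.Agent.Lib.MP_08a7f3_co.Shape

/-! The list of all Hamiltonian spectra of one parity. -/

namespace Pool.Agent.Lib.MP_08a7f3_co

variable {V : Type} {G : SimpleGraph V}

lemma ht_eq (k : ℕ) : HT (2 * (k + 1)) (2 * (k + 1)) := by
  induction k with
  | zero =>
    have h := hubC one_pos
    refine ⟨_, inferInstance, (exC one_pos).nt, (exC one_pos).G, (exC one_pos).w 0,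
      (exC one_pos).conn, (exC one_pos).R.col, leastC one_pos, by omega, _, (leastC one_pos).1,
      le_rfl⟩
  | succ k ih => exact ih.step

lemma ht_all (k c : ℕ) (h1 : k + 3 ≤ c) (h2 : c ≤ k ^ 2 + 3 * k + 5) : HT (2 * (k + 3)) (2 * c) := by
  induction k generalizing c with
  | zero =>
    obtain rfl | rfl | rfl : c = 3 ∨ c = 4 ∨ c = 5 := by omega
    · exact ht_eq 2
    · exact htLL (h := 1) one_pos (by norm_num)
    · exact htL (h := 2) le_rfl (by norm_num)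
  | succ k ih =>
    have sq : (k + 1) ^ 2 = k ^ 2 + 2 * k + 1 := by ring
    by_cases a : c ≤ k ^ 2 + 3 * k + 6
    · obtain ⟨c, rfl⟩ : ∃ d, c = d + 1 := ⟨c - 1, by omega⟩
      exact (ih c (by omega) (by omega)).step
    by_cases a' : k ^ 2 + 4 * k + 8 ≤ c
    · obtain ⟨r, rfl⟩ := Nat.exists_eq_add_of_le a'
      exact htGL (h := k + 2) (r := r) (by omega) (by omega) (by push_cast; ring)
    by_cases k0 : k = 0
    · subst k0
      obtain rfl : c = 7 := by omega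
      exact htLL (h := 2) two_pos (by norm_num)
    obtain ⟨r, e, he, rfl⟩ : ∃ r e, e ≤ 1 ∧ c = k ^ 2 + 2 * k + 8 + 2 * r + e :=
      ⟨(c - (k ^ 2 + 2 * k + 8)) / 2, (c - (k ^ 2 + 2 * k + 8)) % 2, by omega, by omega⟩
    exact htGGL (h := k + 1) (r := r) (c := e) (by omega) (by omega) he (by push_cast; ring)

lemma rl_all {m c : ℕ} (h0 : 1 ≤ m) (h1 : m ≤ c) (h2 : c + m ≤ m ^ 2 + 1)
    (h3 : c + 3 * m ≤ m ^ 2 + 7 ∨ m ^ 2 + 1 ≤ c + 2 * m ∧ c + 2 * m ≤ m ^ 2 + 4 ∨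
      c + m = m ^ 2 + 1) : Rl (2 * m) (2 * c) := by
  by_cases e : c = m
  · obtain ⟨k, rfl⟩ : ∃ k, m = k + 1 := ⟨m - 1, by omega⟩
    exact e ▸ (ht_eq k).rl
  by_cases e1 : c + m = m ^ 2 + 1
  · have : m ≠ 1 := by rintro rfl; omega
    exact rlC (by omega) (by zify at e1; push_cast; linarith)
  obtain ⟨k, rfl⟩ : ∃ k, m = k + 3 := by
    refine ⟨m - 3, ?_⟩
    have : m ≠ 1 := by rintro rfl; omega
    have : m ≠ 2 := by rintro rfl; omega
    omega
  have sq : (k + 3) ^ 2 = k ^ 2 + 6 * k + 9 := by ring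
  by_cases e2 : c ≤ k ^ 2 + 3 * k + 5
  · exact (ht_all k c h1 e2).rl
  by_cases e3 : k ^ 2 + 4 * k + 4 ≤ c
  · obtain rfl | rfl | rfl | rfl : c = k ^ 2 + 4 * k + 4 ∨ c = k ^ 2 + 4 * k + 5 ∨
        c = k ^ 2 + 4 * k + 6 ∨ c = k ^ 2 + 4 * k + 7 := by omega
    · exact rlT (h := k + 2) (by omega) (by push_cast; ring)
    · exact (htL (h := k + 2) (by omega) (by push_cast; ring)).rl
    · exact rlK (h := k + 2) (by omega) (by push_cast; ring)
    · exact (htG (h := k + 2) (by omega) (by push_cast; ring)).rl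
  obtain rfl | rfl : c = k ^ 2 + 3 * k + 6 ∨ c = k ^ 2 + 3 * k + 7 := by omega
  · exact rlGK (h := k + 1) (by omega) (by push_cast; ring)
  · exact rlGG (h := k + 1) (by omega) (by push_cast; ring)

lemma bip_eq [Finite V] (hG : G.Connected) (hb : G.Colorable 2) {a b : ℕ}
    (ha : IsLeast (spectrum G) a) (h : IsGreatest (spectrum G) b) :
    spectrum G = {t | a ≤ t ∧ t ≤ b ∧ Even t} := by
  ext t
  refine ⟨fun ht => ⟨ha.2 ht, h.2 ht, even_of_bip hG hb ht⟩, fun ⟨h1, h2, h3⟩ => ?_⟩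
  rcases h2.eq_or_lt with e | e
  · exact e ▸ h.1
  · refine (gap hG ha.1 h.1 h1 e).resolve_right fun q => ?_
    exact Nat.even_add_one.1 (even_of_bip hG hb q) h3

lemma complete_eq [Fintype V] [Nontrivial V] (hG : G.Connected) (h : ∀ u v, u ≠ v → G.Adj u v) :
    spectrum G = {Fintype.card V} := by
  refine Set.eq_singleton_iff_nonempty_unique_mem.2 ⟨spectrum_nonempty, fun t ht => ?_⟩
  have h1 := card_le_sp hG Fintype.one_lt_card ht
  obtain ⟨l, hl, e⟩ := mem_sp.1 ht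
  have := cs_ne (d' := fun _ _ => 1) (fun u v q => (dz_adj.2 (h u v q)).le) hl.1
    (hl.len ▸ Fintype.one_lt_card)
  rw [cs_const, hl.len] at this
  omega

/-- the criterion of Fujie and Zhang -/
lemma one_par [Finite V] (hG : G.Connected)
    (h : ∀ x ∈ spectrum G, ∀ y ∈ spectrum G, x % 2 = y % 2) :
    G.Colorable 2 ∨ ∀ u v, u ≠ v → G.Adj u v := by
  have nb : ∀ {b c} (_ : G.Adj b c) y, dz G b y ≤ dz G c y + 1 := fun {b c} e y => by
    have := dz_tri hG b c y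
    rw [dz_adj.2 e] at this; omega
  have tw : ∀ b c x, G.Adj b c → dz G b x = dz G c x → ∀ y, y ≠ b → y ≠ c →
      dz G b y = dz G c y := fun b c x e hx y y1 y2 => by
    by_contra q
    have e1 := dz_adj.2 e
    have x1 : x ≠ b := by rintro rfl; rw [dz_self, dz_comm] at hx; omega
    have x2 : x ≠ c := by rintro rfl; rw [dz_self] at hx; omega
    have x3 : x ≠ y := by rintro rfl; exact q hx
    obtain ⟨R, o⟩ := exists_rest [b, x, y, c] (by
      simp [x1.symm, y1.symm, e.ne, x2, x3, y2])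
    have o' : Ord ([b, y, x, c] ++ R) := o.perm ((List.Perm.swap _ _ _).cons b)
    have := h _ o.mem _ o'.mem
    have h1 := cl_cs (G := G) ([b, x, y, c] ++ R)
    have h2 := cl_cs (G := G) ([b, y, x, c] ++ R)
    have h3 := nb e y
    have h4 := nb e.symm y
    simp only [List.cons_append, List.nil_append, cs, sg, dz_comm y c, dz_comm x c,
      dz_comm y x] at h1 h2 this
    omega
  obtain ⟨r⟩ := hG.nonempty
  by_cases ex : ∃ b c, G.Adj b c ∧ dz G b r = dz G c r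
  · obtain ⟨b, c, e, hx⟩ := ex
    have t1 : ∀ v, G.Adj b v → ∀ y, y ≠ b → y ≠ v → dz G b y = dz G v y := fun v hv => by
      by_cases q : v = c
      · exact q ▸ tw b c r e hx
      · refine tw b v c hv ?_
        rw [dz_comm v, ← tw b c r e hx v hv.ne' q, dz_adj.2 e, dz_adj.2 hv]
    have t2 : ∀ {v w} (_ : G.Walk v w), (v = b ∨ G.Adj b v) → (w = b ∨ G.Adj b w) := by
      intro v w p
      induction p with
      | nil => exact id
      | @cons v u w a p ih =>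
        rintro (rfl | q)
        · exact ih (Or.inr a)
        · by_cases z : u = b
          · exact ih (Or.inl z)
          · exact ih (Or.inr (dz_adj.1 ((t1 v q u z a.ne').trans (dz_adj.2 a))))
    have t3 : ∀ v, v ≠ b → G.Adj b v := fun v q =>
      (hG b v).elim fun p => (t2 p (Or.inl rfl)).resolve_left q
    refine Or.inr fun u v q => ?_
    by_cases z : u = b
    · exact z ▸ t3 v (z ▸ q.symm)
    by_cases z' : v = b
    · exact z' ▸ (t3 u z).symm
    · exact dz_adj.1 ((t1 u (t3 u z) v z' q.symm).symm.trans (dz_adj.2 (t3 v z')))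
  · refine Or.inl ⟨SimpleGraph.Coloring.mk (fun v => ⟨(dz G v r % 2).toNat, by omega⟩)
      fun {u v} e q => ex ⟨u, v, e, ?_⟩⟩
    have h1 := nb e r
    have h2 := nb e.symm r
    have h3 := congrArg Fin.val q
    simp only at h3
    omega

theorem bip_list [Finite V] [Nontrivial V] (hG : G.Connected) (hb : G.Colorable 2) :
    ∃ m c : ℕ, 1 ≤ m ∧ m ≤ c ∧ c + m ≤ m ^ 2 + 1 ∧ (c + 3 * m ≤ m ^ 2 + 7 ∨
      m ^ 2 + 1 ≤ c + 2 * m ∧ c + 2 * m ≤ m ^ 2 + 4 ∨ c + m = m ^ 2 + 1) ∧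
      spectrum G = {t | 2 * m ≤ t ∧ t ≤ 2 * c ∧ Even t} := by
  have := Fintype.ofFinite V
  obtain ⟨a, ha, ha'⟩ := Set.exists_min_image _ id (spectrum_finite (G := G)) spectrum_nonempty
  obtain ⟨b, h1, h2⟩ := Set.exists_max_image _ id (spectrum_finite (G := G)) spectrum_nonempty
  obtain ⟨m, rfl⟩ := (even_of_bip hG hb ha).two_dvd
  obtain ⟨c, rfl⟩ := (even_of_bip hG hb h1).two_dvd
  have k1 := card_le_sp hG Fintype.one_lt_card ha
  have k2 := Fintype.one_lt_card (α := V)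
  have k3 : 2 * m ≤ 2 * c := ha' _ h1
  obtain ⟨φ, P⟩ := exists_per hG ha (by omega)
  have k4 := P.top hG h1
  have k5 : c + m ≤ m ^ 2 + 1 := by zify; push_cast at k4; linarith
  refine ⟨m, c, by omega, by omega, k5, ?_, bip_eq hG hb ⟨ha, ha'⟩ ⟨h1, h2⟩⟩
  by_cases q : 5 ≤ m
  · have := nec hG hb q ha ha' h1 h2
    have sq : ((m : ℤ) - 1) ^ 2 = m ^ 2 - 2 * m + 1 := by ring
    rw [sq] at this
    zify
    push_cast at this
    omega
  · obtain rfl | rfl | rfl | rfl : m = 1 ∨ m = 2 ∨ m = 3 ∨ m = 4 := by omega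
    all_goals omega

theorem one_parity (S : Set ℕ) :
    ((∃ (V : Type) (_ : Finite V) (_ : Nontrivial V) (G : SimpleGraph V),
        G.Connected ∧ spectrum G = S) ∧ ∀ x ∈ S, ∀ y ∈ S, x % 2 = y % 2) ↔
      (∃ n, 2 ≤ n ∧ S = {n}) ∨ ∃ m c : ℕ, 1 ≤ m ∧ m ≤ c ∧ c + m ≤ m ^ 2 + 1 ∧
        (c + 3 * m ≤ m ^ 2 + 7 ∨ m ^ 2 + 1 ≤ c + 2 * m ∧ c + 2 * m ≤ m ^ 2 + 4 ∨
          c + m = m ^ 2 + 1) ∧ S = {t | 2 * m ≤ t ∧ t ≤ 2 * c ∧ Even t} := by
  constructor
  · rintro ⟨⟨V, _, _, G, hG, rfl⟩, h⟩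
    have := Fintype.ofFinite V
    exact (one_par hG h).symm.imp (fun q => ⟨_, Fintype.one_lt_card, complete_eq hG q⟩)
      (bip_list hG)
  · rintro (⟨n, hn, rfl⟩ | ⟨m, c, h0, h1, h2, h3, rfl⟩)
    · have : Nontrivial (Fin n) := Fin.nontrivial_iff_two_le.2 hn
      refine ⟨⟨Fin n, inferInstance, this, ⊤, SimpleGraph.connected_top, ?_⟩, by simp⟩
      simpa using complete_eq (G := (⊤ : SimpleGraph (Fin n))) SimpleGraph.connected_top
        fun _ _ q => q
    · obtain ⟨V, _, _, G, hG, hb, a, b⟩ := rl_all h0 h1 h2 h3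
      refine ⟨⟨V, inferInstance, inferInstance, G, hG, bip_eq hG hb a b⟩, ?_⟩
      rintro x ⟨-, -, hx⟩ y ⟨-, -, hy⟩
      rw [Nat.even_iff.1 hx, Nat.even_iff.1 hy]

end Pool.Agent.Lib.MP_08a7f3_co
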