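import Pool.Agent.Lib.MP_08a7f3_co.Op.Fold

/-! Graphs made of a ring and points of height zero or one over it. -/

namespace Pool.Agent.Lib.MP_08a7f3_co

variable {V : Type} {h : ℕ}

lemma rho_is {k : ℤ} (c : ℤ) (h0 : 0 < h) (c0 : 0 ≤ c) (c1 : c ≤ h)
    (e : k = c ∨ k = -c ∨ k = 2 * h - c ∨ k = c - 2 * h) : rho h k = c := by
  rcases e with e | e | e | e
  · rw [rho_eq h0 (j := c) (by simp [e]) (by rw [abs_le]; omega), abs_of_nonneg c0]
  · rw [rho_eq h0 (j := -c) (by simp [e]) (by rw [abs_le]; omega), abs_neg, abs_of_nonneg c0]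
  · rw [rho_eq h0 (j := -c) (by simp [e]) (by rw [abs_le]; omega), abs_neg, abs_of_nonneg c0]
  · rw [rho_eq h0 (j := c) (by simp [e]) (by rw [abs_le]; omega), abs_of_nonneg c0]

lemma rd_comm (h0 : 0 < h) (s t : ℤ) : rd h s t = rd h t s := rho_comm h0 s t

/-- positions, heights, partners, and the points of the ring -/
structure RD (V : Type) (h : ℕ) where
  pos : V → ℤ
  ht : V → ℤ
  P : V → V → Prop
  ω : ℤ → V
  h0 : 0 < h
  h01 : ∀ v, ht v = 0 ∨ ht v = 1
  sy : ∀ u v, P u v → P v u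
  pr : ∀ u v, P u v → ht u = 1 ∧ rd h (pos u) (pos v) = 1
  un : ∀ u v w, P u v → P u w → v = w
  w0 : ∀ k, ht (ω k) = 0
  wp : ∀ k, (2 * h : ℤ) ∣ pos (ω k) - k
  wc : ∀ s t, (2 * h : ℤ) ∣ s - t → ω s = ω t

namespace RD

variable (R : RD V h)

/-- the graph -/
def gr : SimpleGraph V where
  Adj u v := (R.ht u = 0 ∧ R.ht v = 0 ∧ rd h (R.pos u) (R.pos v) = 1) ∨
    (R.ht u + R.ht v = 1 ∧ rd h (R.pos u) (R.pos v) = 0) ∨ R.P u v
  symm := ⟨fun u v e => by
    rw [rd_comm R.h0, add_comm]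
    have := R.sy u v
    tauto⟩
  loopless := ⟨fun u e => by
    have h1 := rd_self R.h0 (R.pos u)
    have h2 := R.pr u u
    rcases e with e | e | e
    · omega
    · omega
    · have := h2 e; omega⟩

lemma rdw (x k : ℤ) : rd h x (R.pos (R.ω k)) = rd h x k :=
  rho_congr R.h0 (dv (dvd_neg.2 (R.wp k)) (by ring))

lemma adj0 {v : V} (e : R.ht v = 0) {k : ℤ} (q : rd h (R.pos v) k = 1) : R.gr.Adj v (R.ω k) :=
  Or.inl ⟨e, R.w0 k, (R.rdw _ k).trans q⟩

lemma adj1 {v : V} (e : R.ht v = 1) {k : ℤ} (q : rd h (R.pos v) k = 0) : R.gr.Adj v (R.ω k) :=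
  Or.inr (Or.inl ⟨by rw [e, R.w0]; rfl, (R.rdw _ k).trans q⟩)

lemma adjw (k : ℤ) : R.gr.Adj (R.ω k) (R.ω (k + 1)) := by
  have := R.h0
  refine R.adj0 (R.w0 k) ?_
  rw [rd_comm R.h0, R.rdw]
  exact rho_is 1 R.h0 (by omega) (by omega) (by omega)

lemma conn : R.gr.Connected := by
  have := R.h0
  have k1 : ∀ k, R.gr.Reachable (R.ω 0) (R.ω k) := fun k => by
    induction k using Int.induction_on with
    | zero => rfl
    | succ i ih => exact ih.trans (R.adjw i).reachable
    | pred i ih =>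
      refine ih.trans ?_
      simpa using (R.adjw (-i - 1)).symm.reachable
  have k2 : ∀ v, R.gr.Reachable (R.ω 0) v := fun v => by
    rcases R.h01 v with e | e
    · exact (k1 _).trans (R.adj0 e (k := R.pos v + 1)
        (rho_is 1 R.h0 (by omega) (by omega) (by omega))).symm.reachable
    · exact (k1 _).trans (R.adj1 e (rd_self R.h0 _)).symm.reachable
  have : Nonempty V := ⟨R.ω 0⟩
  exact ⟨fun u v => (k2 u).symm.trans (k2 v)⟩

lemma col : R.gr.Colorable 2 := by
  refine ⟨SimpleGraph.Coloring.mk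
    (fun v => ⟨((R.pos v + R.ht v) % 2).toNat, by omega⟩) fun {u v} e q => ?_⟩
  have h1 := rho_par R.h0 (R.pos u - R.pos v)
  have h2 := congrArg Fin.val q
  simp only at h2
  rcases e with e | e | e
  · simp only [rd] at e; omega
  · simp only [rd] at e; omega
  · have h3 := R.pr _ _ e
    have h4 := R.pr _ _ (R.sy _ _ e)
    simp only [rd] at h3; omega

lemma adj_le {u v : V} (e : R.gr.Adj u v) :
    R.ht v + rd h (R.pos u) (R.pos v) ≤ R.ht u + 1 ∧ rd h (R.pos u) (R.pos v) ≤ 1 := by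
  have h1 := R.h01 u
  rcases e with e | e | e
  · omega
  · omega
  · have h3 := R.pr _ _ e
    have h4 := R.pr _ _ (R.sy _ _ e)
    omega

lemma low0 (u v : V) : rd h (R.pos u) (R.pos v) ≤ dz R.gr u v :=
  dz_lip R.conn (φ := fun v => rd h (R.pos u) (R.pos v)) (rd_self R.h0 _).le
    (fun v w e => (rd_tri R.h0 _ (R.pos v) _).trans (by have := (R.adj_le e).2; omega)) v

lemma low {u v : V} (h1 : u ≠ v) (h2 : ¬ R.P u v) :
    R.ht u + R.ht v + rd h (R.pos u) (R.pos v) ≤ dz R.gr u v := by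
  classical
  have := dz_lip R.conn (u := u) (φ := fun v => if v = u then 0 else if R.P u v then 1 else
    R.ht u + R.ht v + rd h (R.pos u) (R.pos v)) (by simp) (fun v w e => ?_) v
  · rwa [if_neg h1.symm, if_neg h2] at this
  have a1 := R.adj_le e
  have a2 := rd_tri R.h0 (R.pos u) (R.pos v) (R.pos w)
  have a3 : 0 ≤ rd h (R.pos u) (R.pos v) := rho_nn _
  have a4 := R.h01 u
  have a5 := R.h01 v
  have a6 := R.h01 w
  by_cases c1 : w = u
  · simp only [c1, if_true]
    split_ifs <;> omega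
  by_cases c2 : R.P u w
  · simp only [c1, c2, if_true, if_false]
    split_ifs <;> omega
  simp only [c1, c2, if_false]
  split_ifs with c3 c4
  · subst c3
    rcases e with e | e | e
    · omega
    · omega
    · exact absurd e c2
  · have b1 := R.pr _ _ c4
    have b2 := R.pr _ _ (R.sy _ _ c4)
    rcases e with e | e | e
    · omega
    · omega
    · exact absurd (R.un _ _ _ e (R.sy _ _ c4)) c1
  · omega

lemma sec : Sec R.gr h R.ω := fun s t => by
  have := R.low0 (R.ω s) (R.ω t)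
  rwa [R.rdw, rd_comm R.h0, R.rdw, rd_comm R.h0] at this

lemma ring : Ring R.gr (2 * h) fun i => R.ω i :=
  ⟨fun i _ => by simpa using (dz_adj.2 (R.adjw i)).le, R.wc _ _ (by simp)⟩

lemma upw (s t : ℤ) : dz R.gr (R.ω s) (R.ω t) ≤ rd h s t := by
  obtain ⟨i, hi⟩ := cov_fin R.h0 s
  obtain ⟨j, hj⟩ := cov_fin R.h0 t
  rw [← R.wc _ _ hi, ← R.wc _ _ hj]
  exact (R.ring.rho R.conn R.h0 i.2.le j.2.le).trans_eq
    (rho_congr R.h0 (dv (dvd_sub hi hj) (by ring)))

lemma step {u : V} (e : R.ht u = 0) {x : ℤ} (q : rd h (R.pos u) x ≠ 0) :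
    ∃ k, R.gr.Adj u (R.ω k) ∧ rd h k x + 1 = rd h (R.pos u) x := by
  have := R.h0
  obtain ⟨j, j1, j2, j3⟩ := rho_ex R.h0 (R.pos u - x)
  simp only [rd] at q ⊢
  rcases abs_cases j with b | b
  · refine ⟨R.pos u - 1, R.adj0 e (rho_is 1 R.h0 (by omega) (by omega) (by omega)), ?_⟩
    rw [rho_eq R.h0 (j := j - 1) (dv j1 (by ring)) (by rw [abs_le]; omega),
      abs_of_nonneg (by omega)]
    omega
  · refine ⟨R.pos u + 1, R.adj0 e (rho_is 1 R.h0 (by omega) (by omega) (by omega)), ?_⟩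
    rw [rho_eq R.h0 (j := j + 1) (dv j1 (by ring)) (by rw [abs_le]; omega),
      abs_of_nonpos (by omega)]
    omega

lemma up1 {v : V} (e : R.ht v = 1) (k : ℤ) : dz R.gr (R.ω k) v ≤ 1 + rd h k (R.pos v) := by
  have h1 := dz_adj.2 (R.adj1 e (rd_self R.h0 _)).symm
  have h2 := R.upw k (R.pos v)
  have h3 := dz_tri R.conn (R.ω k) (R.ω (R.pos v)) v
  omega

lemma up0 {v : V} (e : R.ht v = 0) {k : ℤ} (q : rd h (R.pos v) k ≠ 0) :
    dz R.gr v (R.ω k) ≤ rd h (R.pos v) k := by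
  obtain ⟨j, j1, j2⟩ := R.step e q
  have h1 := dz_adj.2 j1
  have h2 := R.upw j k
  have h3 := dz_tri R.conn v (R.ω j) (R.ω k)
  omega

lemma up {u v : V} (e : R.ht u = 0 → R.ht v = 0 → rd h (R.pos u) (R.pos v) = 0 → u = v) :
    dz R.gr u v ≤ R.ht u + R.ht v + rd h (R.pos u) (R.pos v) := by
  have k : ∀ u v, R.ht u = 1 → dz R.gr u v ≤ 1 + R.ht v + rd h (R.pos u) (R.pos v) := by
    intro u v a
    have h1 := dz_adj.2 (R.adj1 a (rd_self R.h0 _))
    have h2 := dz_tri R.conn u (R.ω (R.pos u)) v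
    rcases R.h01 v with b | b
    · by_cases c : rd h (R.pos u) (R.pos v) = 0
      · have := dz_adj.2 (show R.gr.Adj u v from Or.inr (Or.inl ⟨by omega, c⟩))
        omega
      · have := R.up0 b (k := R.pos u) (by rwa [rd_comm R.h0])
        rw [dz_comm, rd_comm R.h0] at this
        omega
    · have := R.up1 b (R.pos u)
      omega
  rcases R.h01 u with a | a
  · rcases R.h01 v with b | b
    · by_cases c : rd h (R.pos u) (R.pos v) = 0
      · rw [e a b c, dz_self, rd_self R.h0]; omega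
      by_cases c' : rd h (R.pos u) (R.pos v) = 1
      · have := dz_adj.2 (show R.gr.Adj u v from Or.inl ⟨a, b, c'⟩)
        omega
      obtain ⟨j, j1, j2⟩ := R.step a c
      have h1 := dz_adj.2 j1
      have h2 := R.up0 b (k := j) (by rw [rd_comm R.h0]; omega)
      have h3 := dz_tri R.conn u (R.ω j) v
      rw [dz_comm, rd_comm R.h0] at h2
      omega
    · have := k v u b
      rw [dz_comm, rd_comm R.h0] at this
      omega
  · have := k u v a
    omega

/-- the winding bound when one point of the ring has a twin -/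
lemma twin [Fintype V] (h2 : 2 ≤ h) {y : V} (y1 : ∀ k, y ≠ R.ω k) (y2 : R.ht y = 0)
    (y3 : R.pos y = 0) (y4 : ∀ v, R.ht v = 0 → v = y ∨ ∃ k, v = R.ω k) {t : ℕ}
    (e : t ∈ spectrum R.gr) : (t : ℤ) + (if Even (Fintype.card V) then 2 * (h : ℤ) - 2 else h) ≤
      Fintype.card V * h + 2 * ∑ v, R.ht v := by
  obtain ⟨l, hl, e⟩ := mem_sp.1 e
  obtain ⟨S, T, X, Y, rfl, q⟩ := hl.split (y1 0).symm
  have o : Ord (R.ω 0 :: X ++ y :: Y) := q ▸ hl.perm List.perm_append_comm
  rw [cs_comm, q, List.cons_append, cs, sg_append] at e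
  let D : V → V → ℤ := fun u v => R.ht u + R.ht v + rd h (R.pos u) (R.pos v)
  have u1 : ∀ u v, u ≠ y → u ≠ R.ω 0 → dz R.gr u v ≤ D u v := fun u v a b => R.up fun c d f => by
    obtain rfl | ⟨k, rfl⟩ := y4 u c
    · exact absurd rfl a
    rw [rd_comm R.h0, R.rdw] at f
    obtain rfl | ⟨j, rfl⟩ := y4 v d
    · exact absurd (R.wc _ _ (by simpa [y3] using (rho_zero R.h0).1 f)) b
    · rw [rd_comm R.h0, R.rdw] at f
      exact R.wc _ _ ((rho_zero R.h0).1 f)
  have u2 : ∀ (T : List V) (x z : V), T ≠ [] → y ∉ T → R.ω 0 ∉ T →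
      sg (dz R.gr) x T z ≤ sg D x T z := by
    intro T
    induction T with
    | nil => exact fun _ _ a => absurd rfl a
    | cons c T ih =>
      intro x z _ a b
      simp only [List.mem_cons, not_or] at a b
      have h1 := u1 c x (Ne.symm a.1) (Ne.symm b.1)
      have h3 : sg (dz R.gr) c T z ≤ sg D c T z := by
        by_cases f : T = []
        · subst f; exact u1 c z (Ne.symm a.1) (Ne.symm b.1)
        · exact ih c z f a.2 b.2
      simp only [D] at h1
      rw [dz_comm, rd_comm R.h0, add_comm (R.ht c)] at h1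
      exact add_le_add h1 h3
  have nd := o.1
  simp only [List.cons_append, List.nodup_cons, List.mem_append, List.mem_cons, not_or,
    List.nodup_append] at nd
  obtain ⟨⟨n1, -, n2⟩, -, ⟨n3, -⟩, n4⟩ := nd
  have n5 : y ∉ X := fun a => n4 y a y (Or.inl rfl) rfl
  have sm := o.sum R.ht
  have ln := o.len
  have W : ∀ m : List V, (∀ k, R.ω k ∈ m) → cs D m + (if Even m.length then 2 * (h : ℤ) - 2 else h)
      ≤ m.length * h + 2 * (m.map R.ht).sum := fun m hm => by
    have := wind R.h0 (l := m.map R.pos) fun k => ⟨_, List.mem_map_of_mem (hm k), R.wp k⟩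
    rw [cs_map, List.length_map] at this
    rw [cs_pot (fun u v => rd h (R.pos u) (R.pos v))]
    omega
  have d2 : dz R.gr (R.ω 0) y ≤ 2 := by
    have a1 := dz_adj.2 (R.adj0 y2 (k := 1) (rho_is 1 R.h0 (by omega) (by omega) (by omega))).symm
    have a2 := dz_adj.2 (R.adjw 0)
    have a3 := dz_tri R.conn (R.ω 0) (R.ω 1) y
    rw [zero_add] at a2
    omega
  have sw : ∀ x, D x y = D x (R.ω 0) ∧ D y x = D (R.ω 0) x := fun x => by
    simp only [D, y2, y3, R.w0, R.rdw, rd_comm R.h0 (R.pos (R.ω 0)), rd_comm R.h0 0, and_self]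
  have one : ∀ Z : List V, (∀ k, R.ω k ∈ R.ω 0 :: Z) → Z.length + 2 = Fintype.card V →
      (Z.map R.ht).sum = ∑ v, R.ht v → (t : ℤ) ≤ 2 + cs D (R.ω 0 :: Z) → (t : ℤ) +
      (if Even (Fintype.card V) then 2 * (h : ℤ) - 2 else h) ≤
      Fintype.card V * h + 2 * ∑ v, R.ht v := fun Z a b c d => by
    have := W _ a
    rw [← b]
    simp only [List.length_cons, List.map_cons, List.sum_cons, R.w0, c, Nat.even_add_one,
      show Z.length + 2 = Z.length + 1 + 1 from rfl, not_not] at this ⊢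
    push_cast at this ⊢
    split_ifs at this ⊢ <;> nlinarith
  have ne : ∀ Z : List V, (∀ k, R.ω k ∈ R.ω 0 :: Z) → Z ≠ [] := fun Z a b => by
    have := a 1
    rw [b, List.mem_singleton] at this
    exact R.sec.ne R.h0 (by omega) (by omega) (by omega) this
  by_cases x0 : X = []
  · subst x0
    have c : ∀ k, R.ω k ∈ R.ω 0 :: Y := fun k => by simpa [(y1 k).symm] using o.2 (R.ω k)
    refine one Y c (by simpa using ln) (by simpa [R.w0, y2] using sm) ?_
    have := u2 Y y (R.ω 0) (ne Y c) n3 n2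
    obtain ⟨a, Y, rfl⟩ := List.exists_cons_of_ne_nil (ne Y c)
    simp only [sg, cs, (sw a).2] at this e ⊢
    omega
  by_cases y0 : Y = []
  · subst y0
    have c : ∀ k, R.ω k ∈ R.ω 0 :: X := fun k => by simpa [(y1 k).symm] using o.2 (R.ω k)
    refine one X c (by simpa using ln) (by simpa [R.w0, y2] using sm) ?_
    have := u2 X (R.ω 0) y x0 n5 n1
    obtain ⟨X, a, rfl⟩ := (List.eq_nil_or_concat' X).resolve_left x0
    rw [dz_comm] at d2
    simp only [sg, cs, sg_append, (sw a).1] at this e ⊢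
    omega
  have a1 := u2 X (R.ω 0) y x0 n5 n1
  have a2 := u2 Y y (R.ω 0) y0 n3 n2
  have a3 := W _ fun k => o.2 (R.ω k)
  rw [ln, sm, List.cons_append, cs, sg_append] at a3
  omega

end RD

end Pool.Agent.Lib.MP_08a7f3_co
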