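import Pool.Agent.Lib.MP_08a7f3_co.Op.Bas

/-! Closed walks, upper bounds by winding, and zigzag tours. -/

namespace Pool.Agent.Lib.MP_08a7f3_co

variable {α β : Type} {G : SimpleGraph α} {L h : ℕ} {F : ℕ → α}

/-- a closed walk with steps of length at most one -/
structure Ring (G : SimpleGraph α) (L : ℕ) (F : ℕ → α) : Prop where
  st : ∀ i < L, dz G (F i) (F (i + 1)) ≤ 1
  cl : F L = F 0

lemma Ring.le (hG : G.Connected) (R : Ring G L F) (s n : ℕ) (e : s + n ≤ L) :
    dz G (F s) (F (s + n)) ≤ n := by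
  induction n with
  | zero => simp [dz_self]
  | succ n ih =>
    have h1 := ih (by omega)
    have h2 := R.st (s + n) (by omega)
    have h3 := dz_tri hG (F s) (F (s + n)) (F (s + n + 1))
    rw [← add_assoc]; push_cast; omega

lemma Ring.le' (hG : G.Connected) (R : Ring G L F) {s t : ℕ} (e : s ≤ t) (e' : t ≤ L) :
    dz G (F s) (F t) ≤ t - s ∧ dz G (F s) (F t) ≤ L - t + s := by
  have h1 := R.le hG s (t - s) (by omega)
  have h2 := R.le hG 0 s (by omega)
  have h3 := R.le hG t (L - t) (by omega)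
  have h4 := dz_tri hG (F s) (F 0) (F t)
  rw [show s + (t - s) = t by omega] at h1
  rw [show t + (L - t) = L by omega, R.cl, dz_comm] at h3
  rw [zero_add, dz_comm] at h2
  omega

lemma Ring.rho (hG : G.Connected) (h0 : 0 < h) (R : Ring G (2 * h) F) {s t : ℕ} (hs : s ≤ 2 * h)
    (ht : t ≤ 2 * h) : dz G (F s) (F t) ≤ rd h s t := by
  wlog e : s ≤ t generalizing s t
  · rw [dz_comm, rd, rho_comm h0]
    exact this ht hs (by omega)
  have := R.le' hG e ht
  obtain ⟨j, j1, j2, j3⟩ := rho_ex h0 ((s : ℤ) - t)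
  have k1 := dvd_cases j1
  have k2 := dvd_cases (dvd_add j1 (dvd_refl _))
  rw [rd, j3]
  push_cast at this
  rcases abs_cases j with b | b <;> omega

lemma Ring.walk (R : Ring G L F) (n s : ℕ) (e : s + n ≤ L) (X : List α) (y : α) :
    sg (dz G) (F s) ((List.range' (s + 1) n).map F ++ X) y ≤ n + sg (dz G) (F (s + n)) X y := by
  induction n generalizing s with
  | zero => simp
  | succ n ih =>
    have h1 := ih (s + 1) (by omega)
    have h2 := R.st s (by omega)
    rw [show s + (n + 1) = s + 1 + n by omega]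
    simp only [List.range'_succ, List.map_cons, List.cons_append, sg]
    push_cast; omega

/-- a short ordering from a closed walk with two detours -/
lemma Ring.short (hG : G.Connected) (R : Ring G L F) {r : ℕ} (hr : r + 2 ≤ L) (X Y : List α)
    (hc : ∀ v, (∃ i < L, v = F i) ∨ v ∈ X ∨ v ∈ Y) {a : ℤ}
    (ha : L - 2 + sg (dz G) (F r) X (F (r + 1)) + sg (dz G) (F (L - 1)) Y (F 0) ≤ a) :
    ∃ t ∈ spectrum G, (t : ℤ) ≤ a := by
  refine sp_le hG (x := F 0) (T := ((List.range' (0 + 1) r).map F ++ X) ++ F (r + 1) ::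
    ((List.range' (r + 1 + 1) (L - r - 2)).map F ++ Y)) (fun v => ?_) ?_
  · simp only [List.mem_cons, List.mem_append, List.mem_map, List.mem_range'_1]
    rcases hc v with ⟨i, hi, rfl⟩ | e | e
    · by_cases a0 : i = 0
      · exact Or.inl (a0 ▸ rfl)
      by_cases a1 : i ≤ r
      · exact Or.inr (Or.inl (Or.inl ⟨i, by omega, rfl⟩))
      by_cases a2 : i = r + 1
      · exact Or.inr (Or.inr (Or.inl (a2 ▸ rfl)))
      · exact Or.inr (Or.inr (Or.inr (Or.inl ⟨i, by omega, rfl⟩)))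
    · tauto
    · tauto
  · have h1 := R.walk r 0 (by omega) X (F (r + 1))
    have h2 := R.walk (L - r - 2) (r + 1) (by omega) Y (F 0)
    rw [show r + 1 + (L - r - 2) = L - 1 by omega] at h2
    rw [zero_add r] at h1
    rw [sg_append]
    omega

lemma up_pts [Fintype β] (hG : G.Connected) (h0 : 0 < h) {val : β → α}
    (hv : Function.Surjective val) {π ht : β → ℤ} (hc : ∀ k, ∃ s, (2 * h : ℤ) ∣ π s - k)
    (hd : ∀ s t, dz G (val s) (val t) ≤ ht s + ht t + rd h (π s) (π t)) {t : ℕ}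
    (e : t ∈ spectrum G) : (t : ℤ) + (if Even (Fintype.card β) then 2 * (h : ℤ) - 2 else h) ≤
      Fintype.card β * h + 2 * ∑ s, ht s := by
  obtain ⟨l, hl, e⟩ := mem_sp.1 e
  rcases l with _ | ⟨x, T⟩
  · obtain ⟨s, -⟩ := hc 0
    simpa using hl.2 (val s)
  have tri : Tri fun s t => dz G (val s) (val t) := fun _ _ _ => dz_tri hG _ _ _
  obtain ⟨m, m1, m2⟩ := tri.ext (x := Function.surjInv hv x) (T := T.map (Function.surjInv hv))
    (hl.1.map (Function.injective_surjInv hv))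
  rw [← List.map_cons, cs_map] at m2
  simp only [Function.surjInv_eq] at m2
  have h1 := cs_mono hd m
  have h2 := wind h0 (l := m.map π) fun k => by
    obtain ⟨s, hs⟩ := hc k
    exact ⟨_, List.mem_map_of_mem (m1.2 s), hs⟩
  rw [cs_pot (fun s t => rd h (π s) (π t)), m1.sum] at h1
  rw [cs_map, List.length_map, m1.len] at h2
  have e' : cs (dz G) (x :: T) = cs (fun u v => dz G u v) (x :: T) := rfl
  omega

lemma cov_fin (h0 : 0 < h) (k : ℤ) : ∃ i : Fin (2 * h), (2 * h : ℤ) ∣ ((i : ℕ) : ℤ) - k := by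
  have h1 := Int.emod_nonneg k (b := 2 * h) (by omega)
  have h2 := Int.emod_lt_of_pos k (b := 2 * h) (by omega)
  refine ⟨⟨(k % (2 * h)).toNat, by omega⟩, ?_⟩
  simp only [Int.toNat_of_nonneg h1]
  exact (Int.mod_modEq k _).symm.dvd

/-- a closed walk and an even number of points next to it -/
lemma Ring.up (hG : G.Connected) (h0 : 0 < h) (R : Ring G (2 * h) F) {m : ℕ} (hm : Even m)
    (e : Fin m → α) (π : Fin m → ℕ) (hπ : ∀ k, π k ≤ 2 * h)
    (he : ∀ k, dz G (e k) (F (π k)) ≤ 1) (hc : ∀ v, (∃ i < 2 * h, v = F i) ∨ ∃ k, v = e k)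
    {t : ℕ} (ht : t ∈ spectrum G) : (t : ℤ) + 2 * h ≤ (2 * h + m) * h + 2 * m + 2 := by
  let P : Fin (2 * h) ⊕ Fin m → ℕ := Sum.elim (fun i => i) π
  let H : Fin (2 * h) ⊕ Fin m → ℤ := Sum.elim (fun _ => 0) fun _ => 1
  let val : Fin (2 * h) ⊕ Fin m → α := Sum.elim (fun i => F i) e
  have k1 : ∀ s, P s ≤ 2 * h := by
    rintro (i | k)
    · exact i.2.le
    · exact hπ k
  have k2 : ∀ s, dz G (val s) (F (P s)) ≤ H s := by
    rintro (i | k)
    · exact (dz_self _).le
    · exact he k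
  have := up_pts hG h0 (val := val) (π := fun s => P s) (ht := H) (fun v => ?_) (fun k => ?_)
    (fun s t => ?_) ht
  · have ev : Even (2 * h + m) := (even_two_mul h).add hm
    simp only [Fintype.card_sum, Fintype.card_fin, ev, if_true, Fintype.sum_sum_type, H,
      Sum.elim_inl, Sum.elim_inr, Finset.sum_const, Finset.card_univ, smul_zero, zero_add,
      nsmul_eq_mul, mul_one] at this
    push_cast at this
    omega
  · rcases hc v with ⟨i, hi, rfl⟩ | ⟨k, rfl⟩
    · exact ⟨.inl ⟨i, hi⟩, rfl⟩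
    · exact ⟨.inr k, rfl⟩
  · obtain ⟨i, hi⟩ := cov_fin h0 k
    exact ⟨.inl i, hi⟩
  · have a1 := k2 s
    have a2 := k2 t
    have a3 := R.rho hG h0 (k1 s) (k1 t)
    have a4 := dz_tri hG (val s) (F (P s)) (val t)
    have a5 := dz_tri hG (F (P s)) (F (P t)) (val t)
    rw [dz_comm] at a2
    omega

/-- zigzag through antipodal pairs -/
def zig (ω : ℤ → α) (h : ℕ) : ℤ → ℕ → List α
  | _, 0 => []
  | p, k + 1 => ω p :: ω (p + h) :: zig ω h (p + 1) k

/-- points over the ring, at least as far apart as on the ring -/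
def Sec (G : SimpleGraph α) (h : ℕ) (ω : ℤ → α) : Prop := ∀ s t, rd h s t ≤ dz G (ω s) (ω t)

variable {ω : ℤ → α}

lemma Sec.le (h0 : 0 < h) (S : Sec G h ω) (s t : ℤ) {j : ℤ} (e : (2 * h : ℤ) ∣ s - t - j)
    (hj : |j| ≤ h) : |j| ≤ dz G (ω s) (ω t) := rho_eq h0 e hj ▸ S s t

lemma Sec.ne (h0 : 0 < h) (S : Sec G h ω) {s t : ℤ} (e : s ≠ t) (e1 : s - t < 2 * h)
    (e2 : t - s < 2 * h) : ω s ≠ ω t := fun q => by
  have := S s t
  rw [q, dz_self] at this
  have := dvd_cases ((rho_zero h0).1 (le_antisymm this (rho_nn _)))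
  omega

lemma zig_mem {v : α} {p : ℤ} {k : ℕ} (e : v ∈ zig ω h p k) :
    ∃ i : ℤ, 0 ≤ i ∧ i < k ∧ (v = ω (p + i) ∨ v = ω (p + i + h)) := by
  induction k generalizing p with
  | zero => simp [zig] at e
  | succ k ih =>
    simp only [zig, List.mem_cons] at e
    rcases e with e | e | e
    · exact ⟨0, le_rfl, by omega, Or.inl (by simpa using e)⟩
    · exact ⟨0, le_rfl, by omega, Or.inr (by simpa using e)⟩
    · obtain ⟨i, i1, i2, i3⟩ := ih e
      exact ⟨1 + i, by omega, by omega, by simpa only [add_assoc] using i3⟩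

lemma zig_nd (h0 : 0 < h) (S : Sec G h ω) {k : ℕ} (hk : k ≤ h) (p : ℤ) :
    (zig ω h p k).Nodup := by
  induction k generalizing p with
  | zero => simp [zig]
  | succ k ih =>
    simp only [zig, List.nodup_cons, List.mem_cons, not_or]
    refine ⟨⟨S.ne h0 (by omega) (by omega) (by omega), fun e => ?_⟩, fun e => ?_, ih (by omega) _⟩
    all_goals
      obtain ⟨i, i1, i2, e | e⟩ := zig_mem e <;>
        exact S.ne h0 (by omega) (by omega) (by omega) e

lemma zig_sg (h0 : 0 < h) (S : Sec G h ω) (k : ℕ) (p : ℤ) (x : α) (X T : List α) (y : α) :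
    sg (dz G) x X (ω p) + (k + 1) * h + k * (h - 1) + sg (dz G) (ω (p + k + h)) T y ≤
      sg (dz G) x (X ++ (zig ω h p (k + 1) ++ T)) y := by
  have a1 : ∀ p, (h : ℤ) ≤ dz G (ω p) (ω (p + h)) := fun p => by
    simpa using S.le h0 p (p + h) (j := -h) (by simp) (by simp)
  induction k generalizing p x X with
  | zero =>
    have := a1 p
    simp only [zig, List.cons_append, List.nil_append, sg_append, sg]
    simp only [Nat.cast_zero, add_zero]
    omega
  | succ k ih =>
    have h1 := a1 p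
    have h2 := ih (p + 1) (ω (p + h)) []
    have h3 := S.le h0 (p + h) (p + 1) (j := h - 1) (by simp) (by rw [abs_le]; omega)
    rw [abs_of_nonneg (by omega)] at h3
    rw [zig, List.cons_append, List.cons_append, sg_append]
    simp only [sg, List.nil_append] at h2 ⊢
    push_cast
    rw [show p + (k + 1) + h = p + 1 + k + h by ring]
    nlinarith

/-- the long ordering -/
lemma tour [Finite α] (hG : G.Connected) (h2 : 2 ≤ h) (S : Sec G h ω) {p : ℤ}
    (hp : p = 1 ∨ p = 1 - h) (X Y : List α) (nd : (X ++ Y).Nodup)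
    (out : ∀ v ∈ X ++ Y, ∀ s, v ≠ ω s) {b : ℤ} (hb : b ≤ 2 * h ^ 2 - 3 * h + 2 +
      sg (dz G) (ω h) X (ω p) + sg (dz G) (ω (p + 2 * h - 2)) Y (ω 0)) :
    ∃ t ∈ spectrum G, b ≤ t := by
  have h0 : 0 < h := by omega
  obtain ⟨k, rfl⟩ : ∃ k, h = k + 2 := ⟨h - 2, by omega⟩
  refine sp_ge hG (x := ω 0) (T := ω (k + 2 : ℕ) :: (X ++ (zig ω (k + 2) p (k + 1) ++ Y))) ?_ ?_
  · have pm : (X ++ (zig ω (k + 2) p (k + 1) ++ Y)).Perm (zig ω (k + 2) p (k + 1) ++ (X ++ Y)) :=
      List.perm_append_comm_assoc _ _ _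
    have q : ∀ s : ℤ, s = 0 ∨ s = (k + 2 : ℕ) → ω s ∉ X ++ (zig ω (k + 2) p (k + 1) ++ Y) := by
      intro s hs e
      rcases List.mem_append.1 (pm.mem_iff.1 e) with e | e
      · obtain ⟨i, i1, i2, e | e⟩ := zig_mem e <;>
          exact S.ne h0 (by omega) (by omega) (by omega) e
      · exact out _ e s rfl
    refine List.nodup_cons.2 ⟨fun e => ?_, List.nodup_cons.2 ⟨q _ (Or.inr rfl), pm.nodup_iff.2
      ((zig_nd h0 S (by omega) p).append nd fun v v1 v2 => ?_)⟩⟩
    · rcases List.mem_cons.1 e with e | e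
      · exact S.ne h0 (by omega) (by omega) (by omega) e
      · exact q _ (Or.inl rfl) e
    · obtain ⟨i, -, -, e | e⟩ := zig_mem v1 <;> exact out _ v2 _ e
  · have a1 := S.le h0 0 (k + 2 : ℕ) (j := -(k + 2 : ℕ)) (by simp) (by rw [abs_le]; omega)
    have a2 := zig_sg h0 S k p (ω (k + 2 : ℕ)) X Y (ω 0)
    rw [abs_neg, abs_of_nonneg (by omega)] at a1
    rw [show p + 2 * ((k + 2 : ℕ) : ℤ) - 2 = p + k + (k + 2 : ℕ) by push_cast; ring] at hb
    simp only [sg]
    push_cast at *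
    nlinarith

end Pool.Agent.Lib.MP_08a7f3_co
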